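import Pool.Agent.Lib.MP_44a765_co.Defs

/-!
# MP_44a765_co: base file (proved lemmas) for the modules
-/

set_option autoImplicit false

namespace Pool.Agent.Lib.MP44a765

open Finset

/-! ### Extension to a saturated graph -/

theorem adj_sup_edge {V : Type} {G : SimpleGraph V} {u v a b : V}
    (h : (G ⊔ SimpleGraph.edge u v).Adj a b) : G.Adj a b ∨ s(a, b) = s(u, v) := by
  rw [SimpleGraph.sup_adj] at h
  rcases h with h | h
  · exact Or.inl h
  · rw [SimpleGraph.edge_adj] at h
    right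
    rw [Sym2.eq_iff]
    exact h.1

/-- the property of a partial construction which survives extension -/
theorem extend {V : Type} [Finite V] (r : ℕ) (G0 : SimpleGraph V) :
    ∀ c0 : Sym2 V → ℕ, ¬ HasRainbow G0 c0 r →
    ∃ (G : SimpleGraph V) (c : Sym2 V → ℕ), G0 ≤ G ∧ (∀ e ∈ G0.edgeSet, c e = c0 e) ∧
      Saturated r G c := by
  refine WellFoundedGT.induction (motive := fun G0 : SimpleGraph V => ∀ c0 : Sym2 V → ℕ,
    ¬ HasRainbow G0 c0 r → ∃ (G : SimpleGraph V) (c : Sym2 V → ℕ), G0 ≤ G ∧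
      (∀ e ∈ G0.edgeSet, c e = c0 e) ∧ Saturated r G c) G0 ?_
  intro G0 ih c0 h0
  by_cases hs : Saturated r G0 c0
  · exact ⟨G0, c0, le_rfl, fun e _ => rfl, hs⟩
  · unfold Saturated at hs
    push Not at hs
    obtain ⟨u, v, huv, hadj, c', hc', hno⟩ := hs h0
    have hlt : G0 < G0 ⊔ SimpleGraph.edge u v := by
      refine lt_of_le_of_ne le_sup_left ?_
      intro h
      apply hadj
      rw [h, SimpleGraph.sup_adj]
      right
      rw [SimpleGraph.edge_adj]
      exact ⟨Or.inl ⟨rfl, rfl⟩, huv⟩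
    obtain ⟨G, c, h1, h2, h3⟩ := ih _ hlt c' hno
    refine ⟨G, c, hlt.le.trans h1, ?_, h3⟩
    intro e he
    have he' : e ≠ s(u, v) := by
      rintro rfl
      exact hadj he
    rw [h2 e (SimpleGraph.edgeSet_mono hlt.le he), hc' e he']

/-- a non-edge which is already saturated stays a non-edge -/
theorem stays {V : Type} {r : ℕ} {G0 G : SimpleGraph V} {c0 c : Sym2 V → ℕ} (hG : G0 ≤ G)
    (hc : ∀ e ∈ G0.edgeSet, c e = c0 e) (hno : ¬ HasRainbow G c r) {u v : V}
    (h : ∀ c' : Sym2 V → ℕ, (∀ e, e ≠ s(u, v) → c' e = c0 e) →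
      HasRainbow (G0 ⊔ SimpleGraph.edge u v) c' r) : ¬ G.Adj u v := by
  classical
  intro hadj
  obtain ⟨K, hK, h1, h2⟩ := h (fun e => if e = s(u, v) then c s(u, v) else c0 e)
    (fun e he => if_neg he)
  have key : ∀ a ∈ K, ∀ b ∈ K, a ≠ b → G.Adj a b ∧
      (if s(a, b) = s(u, v) then c s(u, v) else c0 s(a, b)) = c s(a, b) := by
    intro a ha b hb hab
    rcases adj_sup_edge (h1 a ha b hb hab) with h3 | h3
    · refine ⟨hG h3, ?_⟩
      by_cases h4 : s(a, b) = s(u, v)
      · rw [if_pos h4, h4]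
      · rw [if_neg h4, hc _ h3]
    · refine ⟨?_, by rw [if_pos h3, h3]⟩
      rw [← SimpleGraph.mem_edgeSet, h3]
      exact hadj
  refine hno ⟨K, hK, fun a ha b hb hab => (key a ha b hb hab).1, ?_⟩
  intro a ha b hb a' ha' b' hb' hab hab' heq
  refine h2 a ha b hb a' ha' b' hb' hab hab' ?_
  show (if s(a, b) = s(u, v) then c s(u, v) else c0 s(a, b)) =
    (if s(a', b') = s(u, v) then c s(u, v) else c0 s(a', b'))
  rw [(key a ha b hb hab).2, (key a' ha' b' hb' hab').2, heq]

/-! ### Transfer along an equivalence -/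

theorem transfer {V W : Type} (e : V ≃ W) (r : ℕ) {G : SimpleGraph W} {c : Sym2 W → ℕ} :
    HasRainbow (G.comap e) (fun p => c (p.map e)) r ↔ HasRainbow G c r := by
  classical
  constructor
  · rintro ⟨K, hK, h1, h2⟩
    refine ⟨K.map e.toEmbedding, by rw [Finset.card_map]; exact hK, ?_, ?_⟩
    · intro x hx y hy hab
      obtain ⟨a, ha, rfl⟩ := Finset.mem_map.mp hx
      obtain ⟨b, hb, rfl⟩ := Finset.mem_map.mp hy
      exact h1 a ha b hb (fun h => hab (congrArg _ h))
    · intro x hx y hy x' hx' y' hy' hab hab' heq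
      obtain ⟨a, ha, rfl⟩ := Finset.mem_map.mp hx
      obtain ⟨b, hb, rfl⟩ := Finset.mem_map.mp hy
      obtain ⟨a', ha', rfl⟩ := Finset.mem_map.mp hx'
      obtain ⟨b', hb', rfl⟩ := Finset.mem_map.mp hy'
      have h3 := h2 a ha b hb a' ha' b' hb' (fun h => hab (congrArg _ h))
        (fun h => hab' (congrArg _ h)) heq
      exact congrArg (Sym2.map e) h3
  · rintro ⟨K, hK, h1, h2⟩
    refine ⟨K.map e.symm.toEmbedding, by rw [Finset.card_map]; exact hK, ?_, ?_⟩
    · intro x hx y hy hab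
      obtain ⟨a, ha, rfl⟩ := Finset.mem_map.mp hx
      obtain ⟨b, hb, rfl⟩ := Finset.mem_map.mp hy
      show G.Adj (e (e.symm a)) (e (e.symm b))
      rw [e.apply_symm_apply, e.apply_symm_apply]
      exact h1 a ha b hb (fun h => hab (congrArg _ h))
    · intro x hx y hy x' hx' y' hy' hab hab' heq
      obtain ⟨a, ha, rfl⟩ := Finset.mem_map.mp hx
      obtain ⟨b, hb, rfl⟩ := Finset.mem_map.mp hy
      obtain ⟨a', ha', rfl⟩ := Finset.mem_map.mp hx'
      obtain ⟨b', hb', rfl⟩ := Finset.mem_map.mp hy'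
      have heq' : c s(e (e.symm a), e (e.symm b)) = c s(e (e.symm a'), e (e.symm b')) := heq
      rw [e.apply_symm_apply, e.apply_symm_apply, e.apply_symm_apply, e.apply_symm_apply] at heq'
      have h3 := h2 a ha b hb a' ha' b' hb' (fun h => hab (congrArg _ h))
        (fun h => hab' (congrArg _ h)) heq'
      exact congrArg (Sym2.map e.symm) h3

/-! ### Neighbourhoods -/

/-- the neighbourhood as a finset -/
noncomputable def nb {V : Type} [Fintype V] (G : SimpleGraph V) (v : V) : Finset V := by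
  classical
  exact univ.filter (fun x => G.Adj v x)

theorem mem_nb {V : Type} [Fintype V] {G : SimpleGraph V} {v x : V} : x ∈ nb G v ↔ G.Adj v x := by
  classical
  unfold nb
  rw [Finset.mem_filter]
  exact ⟨fun h => h.2, fun h => ⟨Finset.mem_univ _, h⟩⟩

/-- a subset of a rainbow clique is a rainbow clique -/
theorem RainbowClique.mono {V C : Type} {G : SimpleGraph V} {c : Sym2 V → C} {K L : Finset V}
    (h : RainbowClique G c K) (hL : L ⊆ K) : RainbowClique G c L :=
  ⟨fun a ha b hb hab => h.1 a (hL ha) b (hL hb) hab,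
    fun a ha b hb a' ha' b' hb' hab hab' heq =>
      h.2 a (hL ha) b (hL hb) a' (hL ha') b' (hL hb') hab hab' heq⟩

end Pool.Agent.Lib.MP44a765
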