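import Pool.Agent.Lib.MP_44a765_co.Spec

/-!
# MP_44a765_co, module CNT: counting edges
-/

set_option autoImplicit false

namespace Pool.Agent.Lib.MP44a765

open Finset

open Classical in
theorem specCNT (hHSK : SpecHSK) : SpecCNT := by
  intro n a G B hE
  have hs := hHSK n G
  set d : Fin n → ℕ := fun v => (nb G v ∩ B).card with hd
  set e : Fin n → ℕ := fun v => (nb G v \ B).card with he
  have hde : ∀ v, (nb G v).card = d v + e v := fun v =>
    (Finset.card_inter_add_card_sdiff (nb G v) B).symm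
  have hdc : ∑ v ∈ B, e v = ∑ v ∈ Bᶜ, d v := by
    have h := Finset.sum_card_bipartiteAbove_eq_sum_card_bipartiteBelow (s := B) (t := Bᶜ)
      (fun x y => G.Adj x y)
    have h1 : ∀ v ∈ B, e v = (Finset.bipartiteAbove (fun x y => G.Adj x y) Bᶜ v).card := by
      intro v _
      show (nb G v \ B).card = _
      congr 1
      ext x
      rw [Finset.mem_sdiff, mem_nb, Finset.bipartiteAbove, Finset.mem_filter, Finset.mem_compl]
      exact and_comm
    have h2 : ∀ v ∈ Bᶜ, d v = (Finset.bipartiteBelow (fun x y => G.Adj x y) B v).card := by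
      intro v _
      show (nb G v ∩ B).card = _
      congr 1
      ext x
      rw [Finset.mem_inter, mem_nb, Finset.bipartiteBelow, Finset.mem_filter]
      exact ⟨fun h => ⟨h.2, h.1.symm⟩, fun h => ⟨h.2.symm, h.1⟩⟩
    rw [Finset.sum_congr rfl h1, Finset.sum_congr rfl h2, h]
  have hlow : ∑ v ∈ Bᶜ, (2 * d v + e v) ≤ 2 * (a * n) := by
    have h1 : ∑ v, (nb G v).card = ∑ v ∈ B, (d v + e v) + ∑ v ∈ Bᶜ, (d v + e v) := by
      rw [Finset.sum_add_sum_compl]
      exact Finset.sum_congr rfl fun v _ => hde v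
    have h2 : ∑ v ∈ Bᶜ, (2 * d v + e v) = ∑ v ∈ Bᶜ, d v + ∑ v ∈ Bᶜ, (d v + e v) := by
      rw [← Finset.sum_add_distrib]
      exact Finset.sum_congr rfl fun v _ => by ring
    have h3 : ∑ v ∈ B, e v ≤ ∑ v ∈ B, (d v + e v) :=
      Finset.sum_le_sum fun v _ => Nat.le_add_left _ _
    omega
  set Good : Finset (Fin n) := univ.filter (fun v => v ∉ B ∧ nb G v ⊆ B ∧ (nb G v).card = a)
    with hGood
  set X : Finset (Fin n) := univ.filter (fun v => v ∉ B ∧ (nb G v ∩ B).card < a) with hX
  have hpt : ∀ v ∈ Bᶜ, 2 * a + 1 ≤ (2 * d v + e v) + (if v ∈ Good then 1 else 0) +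
      (if v ∈ X then 2 * a + 1 else 0) := by
    intro v hv
    have hvB : v ∉ B := Finset.mem_compl.1 hv
    by_cases h1 : v ∈ X
    · rw [if_pos h1]; omega
    · have h2 : a ≤ d v := by
        by_contra h
        exact h1 (Finset.mem_filter.2 ⟨Finset.mem_univ _, hvB, not_le.1 h⟩)
      by_cases h3 : v ∈ Good
      · rw [if_pos h3]; omega
      · rw [if_neg h1, if_neg h3]
        by_contra h4
        have h5 : d v = a ∧ e v = 0 := by omega
        apply h3
        refine Finset.mem_filter.2 ⟨Finset.mem_univ _, hvB, ?_, ?_⟩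
        · have h6 : nb G v \ B = ∅ := Finset.card_eq_zero.1 h5.2
          exact Finset.sdiff_eq_empty_iff_subset.1 h6
        · rw [hde, h5.1, h5.2]; rfl
  have hsum := Finset.sum_le_sum hpt
  rw [Finset.sum_const, smul_eq_mul, Finset.sum_add_distrib, Finset.sum_add_distrib] at hsum
  have hg : ∑ v ∈ Bᶜ, (if v ∈ Good then 1 else 0) ≤ Good.card := by
    rw [← Finset.card_filter]
    apply Finset.card_le_card
    intro v hv
    exact (Finset.mem_filter.1 hv).2
  have hx : ∑ v ∈ Bᶜ, (if v ∈ X then 2 * a + 1 else 0) ≤ (2 * a + 1) * X.card := by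
    rw [← Finset.sum_filter, Finset.sum_const, smul_eq_mul, mul_comm]
    apply Nat.mul_le_mul_left
    apply Finset.card_le_card
    intro v hv
    exact (Finset.mem_filter.1 hv).2
  have hc : Bᶜ.card + B.card = n := by
    rw [Finset.card_compl_add_card, Fintype.card_fin]
  have hfin : (2 * a + 1) * n = Bᶜ.card * (2 * a + 1) + (2 * a + 1) * B.card := by
    calc (2 * a + 1) * n = (2 * a + 1) * (Bᶜ.card + B.card) := by rw [hc]
      _ = _ := by ring
  have h9 : (2 * a + 1) * n = 2 * (a * n) + n := by ring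
  have h10 : (2 * a + 1) * (B.card + X.card) = (2 * a + 1) * B.card + (2 * a + 1) * X.card := by
    ring
  omega

end Pool.Agent.Lib.MP44a765
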