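import Mathlib

/-!
# MP_44a765_co: rainbow saturation numbers of cliques, definitions
-/

set_option autoImplicit false

namespace Pool.Agent.Lib.MP44a765

/-- The vertices of `K` are pairwise adjacent in `G` and different edges inside `K` have different
colours. -/
def RainbowClique {V C : Type} (G : SimpleGraph V) (c : Sym2 V → C) (K : Finset V) : Prop :=
  (∀ a ∈ K, ∀ b ∈ K, a ≠ b → G.Adj a b) ∧
  (∀ a ∈ K, ∀ b ∈ K, ∀ a' ∈ K, ∀ b' ∈ K, a ≠ b → a' ≠ b' →
    c s(a, b) = c s(a', b') → s(a, b) = s(a', b'))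

/-- `G` with the edge colouring `c` contains a rainbow copy of `K_r`. -/
def HasRainbow {V : Type} (G : SimpleGraph V) (c : Sym2 V → ℕ) (r : ℕ) : Prop :=
  ∃ K : Finset V, K.card = r ∧ RainbowClique G c K

/-- `G` with the edge colouring `c` is rainbow `K_r` saturated: it has no rainbow copy of `K_r`,
and inserting any non-edge `u v` with any colour (the colouring `c'` is arbitrary at `u v` and equal
to `c` elsewhere) produces one. -/
def Saturated {V : Type} (r : ℕ) (G : SimpleGraph V) (c : Sym2 V → ℕ) : Prop :=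
  ¬ HasRainbow G c r ∧
  ∀ u v : V, u ≠ v → ¬ G.Adj u v → ∀ c' : Sym2 V → ℕ, (∀ e, e ≠ s(u, v) → c' e = c e) →
    HasRainbow (G ⊔ SimpleGraph.edge u v) c' r

/-- The rainbow saturation number of `K_r`: the minimum number of edges of a rainbow `K_r` saturated
edge coloured graph on `n` vertices. -/
noncomputable def sat (n r : ℕ) : ℕ :=
  sInf {k | ∃ (G : SimpleGraph (Fin n)) (c : Sym2 (Fin n) → ℕ),
    Saturated r G c ∧ G.edgeSet.ncard = k}

end Pool.Agent.Lib.MP44a765
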