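import Pool.Agent.Lib.MP_44a765_co.Spec

/-!
# Module GAD: gadgets exist
-/

set_option autoImplicit false

namespace Pool.Agent.Lib.MP44a765

open Finset

namespace GADM

/-- the complete multipartite graph with parts of size two -/
def GG (s : ℕ) : SimpleGraph (Fin s × Bool) where
  Adj a b := a.1 ≠ b.1
  symm := ⟨fun _ _ h => fun h' => h h'.symm⟩
  loopless := ⟨fun _ h => h rfl⟩

/-- a transversal -/
def tr {s : ℕ} (β : Fin s → Bool) : Finset (Fin s × Bool) :=
  univ.map ⟨fun i => (i, β i), fun _ _ h => congrArg Prod.fst h⟩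

theorem mem_tr {s : ℕ} {β : Fin s → Bool} {x : Fin s × Bool} : x ∈ tr β ↔ x.2 = β x.1 := by
  unfold tr
  rw [mem_map]
  constructor
  · rintro ⟨i, -, rfl⟩
    rfl
  · intro h
    exact ⟨x.1, mem_univ _, Prod.ext rfl h.symm⟩

theorem card_tr {s : ℕ} (β : Fin s → Bool) : (tr β).card = s := by
  unfold tr
  rw [card_map, card_univ, Fintype.card_fin]

theorem rc_tr {s : ℕ} {c : Sym2 (Fin s × Bool) → ℕ} (hc : Function.Injective c)
    (β : Fin s → Bool) : RainbowClique (GG s) c (tr β) := by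
  refine ⟨?_, fun _ _ _ _ _ _ _ _ _ _ h => hc h⟩
  intro a ha b hb hab h
  rw [mem_tr] at ha hb
  apply hab
  refine Prod.ext h ?_
  rw [ha, hb]
  exact congrArg β h

theorem gad (s : ℕ) : ∃ c : Sym2 (Fin s × Bool) → ℕ, Gad s (GG s) c := by
  classical
  obtain ⟨c, hc⟩ := exists_injective_nat (Sym2 (Fin s × Bool))
  have hvx : ∀ x : Fin s × Bool, ∃ K : Finset (Fin s × Bool), K.card = s ∧
      RainbowClique (GG s) c K ∧ x ∉ K := by
    intro x
    refine ⟨tr fun _ => !x.2, card_tr _, rc_tr hc _, ?_⟩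
    rw [mem_tr]
    cases x.2 <;> simp
  refine ⟨c, ?_, hvx, ?_⟩
  · intro K hK hr
    have h1 : (K.image Prod.fst).card = K.card := by
      rw [card_image_iff]
      intro a ha b hb hab
      by_contra hne
      exact hr.1 a ha b hb hne hab
    have h2 := card_le_univ (K.image Prod.fst)
    rw [Fintype.card_fin] at h2
    omega
  · intro α
    by_cases h : ∃ x y : Fin s × Bool, c s(x, y) = α
    · obtain ⟨x, y, hxy⟩ := h
      obtain ⟨K, h1, h2, h3⟩ := hvx x
      refine ⟨K, h1, h2, ?_⟩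
      intro u hu v hv _ he
      rw [← hxy] at he
      have h4 := hc he
      rw [Sym2.eq_iff] at h4
      rcases h4 with ⟨h5, -⟩ | ⟨-, h5⟩
      · exact h3 (h5 ▸ hu)
      · exact h3 (h5 ▸ hv)
    · refine ⟨tr fun _ => true, card_tr _, rc_tr hc _, ?_⟩
      intro u _ v _ _ he
      exact h ⟨u, v, he⟩

end GADM

theorem specGAD (hGTR : SpecGTR) : SpecGAD := by
  intro s hs
  obtain ⟨c, hc⟩ := GADM.gad s
  have h1 : HasGad s (ord s) := Nat.sInf_mem (s := {k | HasGad s k}) ⟨_, hGTR s _ _ _ hc⟩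
  refine ⟨h1, ?_, fun k hk => Nat.sInf_le (s := {k | HasGad s k}) hk⟩
  obtain ⟨G, c', hg⟩ := h1
  obtain ⟨K, hK, -, -⟩ := hg.cl 0
  have h2 := card_le_univ K
  rw [Fintype.card_fin] at h2
  omega

end Pool.Agent.Lib.MP44a765
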