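import Pool.Agent.Lib.MP_44a765_co.Spec

/-!
# MP_44a765_co, module GRE: greedy choice
-/

set_option autoImplicit false

namespace Pool.Agent.Lib.MP44a765

open Finset

open Classical in
theorem specGRE : SpecGRE := by
  intro n G B W m D f
  induction m generalizing W with
  | zero =>
    intro _ _
    exact ⟨∅, Finset.empty_subset _, rfl, fun v hv => absurd hv (Finset.notMem_empty v)⟩
  | succ m ih =>
    intro hW hlt
    have hne : W.Nonempty := by
      rw [Finset.nonempty_iff_ne_empty]
      rintro rfl
      simp at hlt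
    obtain ⟨v, hv⟩ := hne
    set Z : Finset (Fin n) := insert v (nb G v ∪ (nb G v \ B).biUnion (fun x => nb G x)) with hZ
    have hZf : f * Z.card ≤ f * (1 + D) + D * n := by
      have h1 : Z.card ≤ (nb G v ∪ (nb G v \ B).biUnion (fun x => nb G x)).card + 1 :=
        Finset.card_insert_le _ _
      have h2 : (nb G v ∪ (nb G v \ B).biUnion (fun x => nb G x)).card ≤
          (nb G v).card + ((nb G v \ B).biUnion (fun x => nb G x)).card := Finset.card_union_le _ _
      have h3 : ((nb G v \ B).biUnion (fun x => nb G x)).card ≤ ∑ x ∈ nb G v \ B, (nb G x).card :=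
        Finset.card_biUnion_le
      have h4 : f * ∑ x ∈ nb G v \ B, (nb G x).card ≤ D * n := by
        rw [Finset.mul_sum]
        calc ∑ x ∈ nb G v \ B, f * (nb G x).card ≤ ∑ _x ∈ nb G v \ B, n := by
              refine Finset.sum_le_sum fun x hx => ?_
              rw [Finset.mem_sdiff] at hx
              exact (hW v hv).2 x hx.1 hx.2
          _ = (nb G v \ B).card * n := by rw [Finset.sum_const, smul_eq_mul]
          _ ≤ D * n := Nat.mul_le_mul_right _
              ((Finset.card_le_card Finset.sdiff_subset).trans (hW v hv).1)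
      have h5 := (hW v hv).1
      calc f * Z.card ≤ f * ((1 + D) + ∑ x ∈ nb G v \ B, (nb G x).card) :=
            Nat.mul_le_mul_left _ (by omega)
        _ = f * (1 + D) + f * ∑ x ∈ nb G v \ B, (nb G x).card := by ring
        _ ≤ _ := by omega
    have hcard : f * W.card ≤ f * (W \ Z).card + f * Z.card := by
      rw [← Nat.mul_add]
      apply Nat.mul_le_mul_left
      have := Finset.card_le_card_sdiff_add_card (s := W) (t := Z)
      omega
    obtain ⟨S, hSW, hSm, hS⟩ := ih (W \ Z) (fun u hu => hW u (Finset.mem_sdiff.1 hu).1) (by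
      have : (m + 1) * (f * (1 + D) + D * n) =
        m * (f * (1 + D) + D * n) + (f * (1 + D) + D * n) := by ring
      omega)
    have hout : ∀ u ∈ S, u ∈ W ∧ u ≠ v ∧ ¬ G.Adj v u ∧
        ∀ x, G.Adj v x → G.Adj u x → x ∈ B := by
      intro u hu
      obtain ⟨h1, h2⟩ := Finset.mem_sdiff.1 (hSW hu)
      rw [hZ, Finset.mem_insert, Finset.mem_union, Finset.mem_biUnion] at h2
      push Not at h2
      refine ⟨h1, h2.1, fun h => h2.2.1 (mem_nb.2 h), fun x hx hx' => ?_⟩
      by_contra hxB
      exact h2.2.2 x (Finset.mem_sdiff.2 ⟨mem_nb.2 hx, hxB⟩) (mem_nb.2 hx'.symm)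
    refine ⟨insert v S, ?_, ?_, ?_⟩
    · intro u hu
      rcases Finset.mem_insert.1 hu with rfl | hu
      · exact hv
      · exact (hout u hu).1
    · rw [Finset.card_insert_of_notMem, hSm]
      intro h
      exact (hout v h).2.1 rfl
    · intro u hu u' hu' hne
      rcases Finset.mem_insert.1 hu with h1 | h1 <;> rcases Finset.mem_insert.1 hu' with h2 | h2
      · exact absurd (h1.trans h2.symm) hne
      · subst h1
        exact (hout u' h2).2.2
      · subst h2
        have h3 := (hout u h1).2.2
        exact ⟨fun h => h3.1 h.symm, fun x hx hx' => h3.2 x hx' hx⟩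
      · exact hS u h1 u' h2 hne

end Pool.Agent.Lib.MP44a765
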