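import Pool.Agent.Lib.MP_44a765_co.Spec

/-!
# Module GTR: gadgets on any finite type
-/

set_option autoImplicit false

namespace Pool.Agent.Lib.MP44a765

open Finset

namespace GTRM

theorem push {V W : Type} (e : V ≃ W) {G : SimpleGraph W} {c : Sym2 W → ℕ} {K : Finset V}
    (h : RainbowClique (G.comap e) (fun p => c (p.map e)) K) :
    RainbowClique G c (K.map e.toEmbedding) := by
  obtain ⟨h1, h2⟩ := h
  refine ⟨?_, ?_⟩
  · intro x hx y hy hab
    obtain ⟨a, ha, rfl⟩ := Finset.mem_map.mp hx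
    obtain ⟨b, hb, rfl⟩ := Finset.mem_map.mp hy
    exact h1 a ha b hb (fun h => hab (congrArg _ h))
  · intro x hx y hy x' hx' y' hy' hab hab' heq
    obtain ⟨a, ha, rfl⟩ := Finset.mem_map.mp hx
    obtain ⟨b, hb, rfl⟩ := Finset.mem_map.mp hy
    obtain ⟨a', ha', rfl⟩ := Finset.mem_map.mp hx'
    obtain ⟨b', hb', rfl⟩ := Finset.mem_map.mp hy'
    have h3 := h2 a ha b hb a' ha' b' hb' (fun h => hab (congrArg _ h))
      (fun h => hab' (congrArg _ h)) heq
    exact congrArg (Sym2.map e) h3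

theorem pull {V W : Type} (e : V ≃ W) {G : SimpleGraph W} {c : Sym2 W → ℕ} {K : Finset W}
    (h : RainbowClique G c K) :
    RainbowClique (G.comap e) (fun p => c (p.map e)) (K.map e.symm.toEmbedding) := by
  obtain ⟨h1, h2⟩ := h
  refine ⟨?_, ?_⟩
  · intro x hx y hy hab
    obtain ⟨a, ha, rfl⟩ := Finset.mem_map.mp hx
    obtain ⟨b, hb, rfl⟩ := Finset.mem_map.mp hy
    show G.Adj (e (e.symm a)) (e (e.symm b))
    rw [e.apply_symm_apply, e.apply_symm_apply]
    exact h1 a ha b hb (fun h => hab (congrArg _ h))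
  · intro x hx y hy x' hx' y' hy' hab hab' heq
    obtain ⟨a, ha, rfl⟩ := Finset.mem_map.mp hx
    obtain ⟨b, hb, rfl⟩ := Finset.mem_map.mp hy
    obtain ⟨a', ha', rfl⟩ := Finset.mem_map.mp hx'
    obtain ⟨b', hb', rfl⟩ := Finset.mem_map.mp hy'
    have heq' : c s(e (e.symm a), e (e.symm b)) = c s(e (e.symm a'), e (e.symm b')) := heq
    rw [e.apply_symm_apply, e.apply_symm_apply, e.apply_symm_apply, e.apply_symm_apply] at heq'
    have h3 := h2 a ha b hb a' ha' b' hb' (fun h => hab (congrArg _ h))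
      (fun h => hab' (congrArg _ h)) heq'
    exact congrArg (Sym2.map e.symm) h3

end GTRM

theorem specGTR : SpecGTR := by
  intro s A _ G c hG
  obtain ⟨e⟩ : Nonempty (Fin (Nat.card A) ≃ A) := ⟨(Finite.equivFin A).symm⟩
  refine ⟨G.comap e, fun p => c (p.map e), ?_, ?_, ?_⟩
  · intro K hK h
    exact hG.no (K.map e.toEmbedding) (by rw [Finset.card_map]; exact hK) (GTRM.push e h)
  · intro x
    obtain ⟨K, hK, h1, h2⟩ := hG.vx (e x)
    refine ⟨K.map e.symm.toEmbedding, by rw [Finset.card_map]; exact hK, GTRM.pull e h1, ?_⟩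
    intro hx
    obtain ⟨a, ha, hax⟩ := Finset.mem_map.mp hx
    apply h2
    have : e x = a := by
      rw [← hax]
      exact e.apply_symm_apply a
    rw [this]
    exact ha
  · intro α
    obtain ⟨K, hK, h1, h2⟩ := hG.cl α
    refine ⟨K.map e.symm.toEmbedding, by rw [Finset.card_map]; exact hK, GTRM.pull e h1, ?_⟩
    intro x hx y hy hxy
    obtain ⟨a, ha, rfl⟩ := Finset.mem_map.mp hx
    obtain ⟨b, hb, rfl⟩ := Finset.mem_map.mp hy
    show c s(e (e.symm a), e (e.symm b)) ≠ α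
    rw [e.apply_symm_apply, e.apply_symm_apply]
    exact h2 a ha b hb (fun h => hxy (congrArg _ h))

end Pool.Agent.Lib.MP44a765
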