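import Pool.Agent.Lib.MP_44a765_co.Spec

/-!
# MP_44a765_co: module HSK (handshake lemma)
-/

set_option autoImplicit false

namespace Pool.Agent.Lib.MP44a765

open Finset

theorem specHSK : SpecHSK := by
  classical
  intro n G
  have h1 : ∀ v : Fin n, (nb G v).card = G.degree v := by
    intro v
    rw [← SimpleGraph.card_neighborFinset_eq_degree]
    congr 1
    ext x
    rw [mem_nb, SimpleGraph.mem_neighborFinset]
  rw [Finset.sum_congr rfl (fun v _ => h1 v), SimpleGraph.sum_degrees_eq_twice_card_edges]
  congr 1
  rw [← SimpleGraph.coe_edgeFinset, Set.ncard_coe_finset]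

end Pool.Agent.Lib.MP44a765
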