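import Pool.Agent.Lib.MP_44a765_co.Spec

/-!
# KE: saturated pairs by common rainbow cliques
-/

set_option autoImplicit false

namespace Pool.Agent.Lib.MP44a765

open Finset

namespace KEM

lemma mp {V : Type} {G : SimpleGraph V} {c : Sym2 V → ℕ} {s : ℕ} {w w' : V}
    (hno : ¬ HasRainbow G c (s + 2)) (hw : w ≠ w') (h : PairSat G c s w w') (α : ℕ) :
    ∃ R : Finset V, Fits G c s w w' α R := by
  classical
  set c' : Sym2 V → ℕ := fun e => if e = s(w, w') then α else c e with hc'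
  obtain ⟨K, hK, h1, h2⟩ := h c' (fun e he => if_neg he)
  have hcne : ∀ e, e ≠ s(w, w') → c' e = c e := fun e he => if_neg he
  have hcw : c' s(w, w') = α := if_pos rfl
  have hadj : ∀ a ∈ K, ∀ b ∈ K, a ≠ b → s(a, b) ≠ s(w, w') → G.Adj a b := by
    intro a ha b hb hab hne
    rcases adj_sup_edge (h1 a ha b hb hab) with h3 | h3
    · exact h3
    · exact absurd h3 hne
  have hcol : ∀ a ∈ K, ∀ b ∈ K, ∀ a' ∈ K, ∀ b' ∈ K, a ≠ b → a' ≠ b' → s(a, b) ≠ s(w, w') →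
      s(a', b') ≠ s(w, w') → c s(a, b) = c s(a', b') → s(a, b) = s(a', b') := by
    intro a ha b hb a' ha' b' hb' hab hab' hn hn' heq
    refine h2 a ha b hb a' ha' b' hb' hab hab' ?_
    rw [hcne _ hn, hcne _ hn', heq]
  -- both are in `K`
  have hboth : w ∈ K ∧ w' ∈ K := by
    by_contra hcon
    have hne : ∀ a ∈ K, ∀ b ∈ K, s(a, b) ≠ s(w, w') := by
      intro a ha b hb he
      apply hcon
      rw [Sym2.eq_iff] at he
      rcases he with ⟨rfl, rfl⟩ | ⟨rfl, rfl⟩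
      · exact ⟨ha, hb⟩
      · exact ⟨hb, ha⟩
    exact hno ⟨K, hK, fun a ha b hb hab => hadj a ha b hb hab (hne a ha b hb),
      fun a ha b hb a' ha' b' hb' hab hab' heq =>
        hcol a ha b hb a' ha' b' hb' hab hab' (hne a ha b hb) (hne a' ha' b' hb') heq⟩
  obtain ⟨hwK, hw'K⟩ := hboth
  have hα : ∀ a ∈ K, ∀ b ∈ K, a ≠ b → s(a, b) ≠ s(w, w') → c s(a, b) ≠ α := by
    intro a ha b hb hab hn heq
    apply hn
    refine h2 a ha b hb w hwK w' hw'K hab hw ?_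
    rw [hcne _ hn, hcw, heq]
  have mR : ∀ x, x ∈ (K.erase w).erase w' → x ≠ w' ∧ x ≠ w ∧ x ∈ K := fun x hx =>
    ⟨ne_of_mem_erase hx, ne_of_mem_erase (mem_of_mem_erase hx),
      mem_of_mem_erase (mem_of_mem_erase hx)⟩
  have n1 : ∀ x, x ≠ w' → s(w, x) ≠ s(w, w') := by
    intro x hx he
    rw [Sym2.eq_iff] at he
    rcases he with ⟨_, h3⟩ | ⟨h3, h4⟩
    · exact hx h3
    · exact hw h3
  have n2 : ∀ x, x ≠ w → s(w', x) ≠ s(w, w') := by
    intro x hx he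
    rw [Sym2.eq_iff] at he
    rcases he with ⟨h3, _⟩ | ⟨_, h4⟩
    · exact hw h3.symm
    · exact hx h4
  have n3 : ∀ x y, x ≠ w → x ≠ w' → s(x, y) ≠ s(w, w') := by
    intro x y hx hx' he
    rw [Sym2.eq_iff] at he
    rcases he with ⟨h3, _⟩ | ⟨h3, _⟩
    · exact hx h3
    · exact hx' h3
  refine ⟨(K.erase w).erase w', ?_, ⟨?_, ?_⟩, ?_, ?_, ?_, ?_, ?_, ?_⟩
  · have e1 := card_erase_add_one hwK
    have e2 := card_erase_add_one (mem_erase.2 ⟨hw.symm, hw'K⟩)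
    omega
  · intro a ha b hb hab
    obtain ⟨a1, a2, a3⟩ := mR a ha
    obtain ⟨b1, b2, b3⟩ := mR b hb
    exact hadj a a3 b b3 hab (n3 a b a2 a1)
  · intro a ha b hb a' ha' b' hb' hab hab' heq
    obtain ⟨a1, a2, a3⟩ := mR a ha
    obtain ⟨b1, b2, b3⟩ := mR b hb
    obtain ⟨a1', a2', a3'⟩ := mR a' ha'
    obtain ⟨b1', b2', b3'⟩ := mR b' hb'
    exact hcol a a3 b b3 a' a3' b' b3' hab hab' (n3 a b a2 a1) (n3 a' b' a2' a1') heq
  · intro x hx
    obtain ⟨x1, x2, x3⟩ := mR x hx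
    exact ⟨hadj w hwK x x3 x2.symm (n1 x x1), hadj w' hw'K x x3 x1.symm (n2 x x2)⟩
  · intro x hx y hy hxy
    obtain ⟨x1, x2, x3⟩ := mR x hx
    obtain ⟨y1, y2, y3⟩ := mR y hy
    exact hα x x3 y y3 hxy (n3 x y x2 x1)
  · intro x hx
    obtain ⟨x1, x2, x3⟩ := mR x hx
    exact ⟨hα w hwK x x3 x2.symm (n1 x x1), hα w' hw'K x x3 x1.symm (n2 x x2)⟩
  · intro x hx y hy hxy
    obtain ⟨x1, x2, x3⟩ := mR x hx
    obtain ⟨y1, y2, y3⟩ := mR y hy
    refine ⟨fun heq => ?_, fun heq => ?_⟩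
    · have h3 := hcol w hwK x x3 w hwK y y3 x2.symm y2.symm (n1 x x1) (n1 y y1) heq
      rw [Sym2.eq_iff] at h3
      rcases h3 with ⟨_, h4⟩ | ⟨h4, h5⟩
      · exact hxy h4
      · exact y2 h4.symm
    · have h3 := hcol w' hw'K x x3 w' hw'K y y3 x1.symm y1.symm (n2 x x2) (n2 y y2) heq
      rw [Sym2.eq_iff] at h3
      rcases h3 with ⟨_, h4⟩ | ⟨h4, h5⟩
      · exact hxy h4
      · exact y1 h4.symm
  · intro x hx y hy heq
    obtain ⟨x1, x2, x3⟩ := mR x hx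
    obtain ⟨y1, y2, y3⟩ := mR y hy
    have h3 := hcol w hwK x x3 w' hw'K y y3 x2.symm y1.symm (n1 x x1) (n2 y y2) heq
    rw [Sym2.eq_iff] at h3
    rcases h3 with ⟨h4, _⟩ | ⟨h4, h5⟩
    · exact hw h4
    · exact y2 h4.symm
  · intro x hx y hy z hz hyz
    obtain ⟨x1, x2, x3⟩ := mR x hx
    obtain ⟨y1, y2, y3⟩ := mR y hy
    obtain ⟨z1, z2, z3⟩ := mR z hz
    refine ⟨fun heq => ?_, fun heq => ?_⟩
    · have h3 := hcol w hwK x x3 y y3 z z3 x2.symm hyz (n1 x x1) (n3 y z y2 y1) heq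
      rw [Sym2.eq_iff] at h3
      rcases h3 with ⟨h4, _⟩ | ⟨h4, _⟩
      · exact y2 h4.symm
      · exact z2 h4.symm
    · have h3 := hcol w' hw'K x x3 y y3 z z3 x1.symm hyz (n2 x x2) (n3 y z y2 y1) heq
      rw [Sym2.eq_iff] at h3
      rcases h3 with ⟨h4, _⟩ | ⟨h4, _⟩
      · exact y1 h4.symm
      · exact z1 h4.symm

lemma mpr {V : Type} {G : SimpleGraph V} {c : Sym2 V → ℕ} {s : ℕ} {w w' : V} (hw : w ≠ w')
    (h : ∀ α : ℕ, ∃ R : Finset V, Fits G c s w w' α R) : PairSat G c s w w' := by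
  classical
  intro c' hc'
  obtain ⟨R, F⟩ := h (c' s(w, w'))
  have hwR : w ∉ R := fun hx => G.loopless.irrefl w (F.adj w hx).1
  have hw'R : w' ∉ R := fun hx => G.loopless.irrefl w' (F.adj w' hx).2
  have hwi : w ∉ insert w' R := by
    rw [mem_insert]
    rintro (h1 | h1)
    · exact hw h1
    · exact hwR h1
  -- the pairs
  have cls : ∀ a ∈ insert w (insert w' R), ∀ b ∈ insert w (insert w' R), a ≠ b →
      s(a, b) = s(w, w') ∨ (∃ x ∈ R, s(a, b) = s(w, x)) ∨ (∃ x ∈ R, s(a, b) = s(w', x)) ∨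
        ∃ x ∈ R, ∃ y ∈ R, x ≠ y ∧ s(a, b) = s(x, y) := by
    intro a ha b hb hab
    rw [mem_insert, mem_insert] at ha hb
    rcases ha with rfl | rfl | ha <;> rcases hb with rfl | rfl | hb
    · exact absurd rfl hab
    · exact Or.inl rfl
    · exact Or.inr (Or.inl ⟨b, hb, rfl⟩)
    · exact Or.inl Sym2.eq_swap
    · exact absurd rfl hab
    · exact Or.inr (Or.inr (Or.inl ⟨b, hb, rfl⟩))
    · exact Or.inr (Or.inl ⟨a, ha, Sym2.eq_swap⟩)
    · exact Or.inr (Or.inr (Or.inl ⟨a, ha, Sym2.eq_swap⟩))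
    · exact Or.inr (Or.inr (Or.inr ⟨a, ha, b, hb, hab, rfl⟩))
  have c1 : ∀ x ∈ R, c' s(w, x) = c s(w, x) := by
    intro x hx
    refine hc' _ fun he => ?_
    rw [Sym2.eq_iff] at he
    rcases he with ⟨_, h3⟩ | ⟨h3, _⟩
    · exact hw'R (h3 ▸ hx)
    · exact hw h3
  have c2 : ∀ x ∈ R, c' s(w', x) = c s(w', x) := by
    intro x hx
    refine hc' _ fun he => ?_
    rw [Sym2.eq_iff] at he
    rcases he with ⟨h3, _⟩ | ⟨_, h3⟩
    · exact hw h3.symm
    · exact hwR (h3 ▸ hx)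
  have c3 : ∀ x ∈ R, ∀ y ∈ R, c' s(x, y) = c s(x, y) := by
    intro x hx y hy
    refine hc' _ fun he => ?_
    rw [Sym2.eq_iff] at he
    rcases he with ⟨h3, _⟩ | ⟨h3, _⟩
    · exact hwR (h3 ▸ hx)
    · exact hw'R (h3 ▸ hx)
  have hadj : ∀ a b, s(a, b) = s(w, w') → (G ⊔ SimpleGraph.edge w w').Adj a b := by
    intro a b he
    rw [SimpleGraph.sup_adj]
    right
    rw [SimpleGraph.edge_adj]
    rw [Sym2.eq_iff] at he
    refine ⟨he, ?_⟩
    rcases he with ⟨rfl, rfl⟩ | ⟨rfl, rfl⟩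
    · exact hw
    · exact hw.symm
  have hadj2 : ∀ a b x y, G.Adj x y → s(a, b) = s(x, y) → (G ⊔ SimpleGraph.edge w w').Adj a b := by
    intro a b x y hxy he
    rw [SimpleGraph.sup_adj]
    left
    rw [← SimpleGraph.mem_edgeSet, he]
    exact hxy
  refine ⟨insert w (insert w' R), ?_, ?_, ?_⟩
  · rw [card_insert_of_notMem hwi, card_insert_of_notMem hw'R, F.card]
  · intro a ha b hb hab
    rcases cls a ha b hb hab with he | ⟨x, hx, he⟩ | ⟨x, hx, he⟩ | ⟨x, hx, y, hy, hxy, he⟩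
    · exact hadj a b he
    · exact hadj2 a b w x (F.adj x hx).1 he
    · exact hadj2 a b w' x (F.adj x hx).2 he
    · exact hadj2 a b x y (F.rc.1 x hx y hy hxy) he
  · intro a ha b hb a' ha' b' hb' hab hab' heq
    rcases cls a ha b hb hab with he | ⟨x, hx, he⟩ | ⟨x, hx, he⟩ | ⟨x, hx, y, hy, hxy, he⟩ <;>
    rcases cls a' ha' b' hb' hab' with he' | ⟨x', hx', he'⟩ | ⟨x', hx', he'⟩ |
      ⟨x', hx', y', hy', hxy', he'⟩ <;> rw [he, he'] at heq ⊢
    · rw [c1 x' hx'] at heq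
      exact absurd heq.symm (F.ne2 x' hx').1
    · rw [c2 x' hx'] at heq
      exact absurd heq.symm (F.ne2 x' hx').2
    · rw [c3 x' hx' y' hy'] at heq
      exact absurd heq.symm (F.ne1 x' hx' y' hy' hxy')
    · rw [c1 x hx] at heq
      exact absurd heq (F.ne2 x hx).1
    · rw [c1 x hx, c1 x' hx'] at heq
      by_contra hcon
      exact (F.ne3 x hx x' hx' (fun h => hcon (by rw [h]))).1 heq
    · rw [c1 x hx, c2 x' hx'] at heq
      exact absurd heq (F.ne4 x hx x' hx')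
    · rw [c1 x hx, c3 x' hx' y' hy'] at heq
      exact absurd heq (F.ne5 x hx x' hx' y' hy' hxy').1
    · rw [c2 x hx] at heq
      exact absurd heq (F.ne2 x hx).2
    · rw [c2 x hx, c1 x' hx'] at heq
      exact absurd heq.symm (F.ne4 x' hx' x hx)
    · rw [c2 x hx, c2 x' hx'] at heq
      by_contra hcon
      exact (F.ne3 x hx x' hx' (fun h => hcon (by rw [h]))).2 heq
    · rw [c2 x hx, c3 x' hx' y' hy'] at heq
      exact absurd heq (F.ne5 x hx x' hx' y' hy' hxy').2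
    · rw [c3 x hx y hy] at heq
      exact absurd heq (F.ne1 x hx y hy hxy)
    · rw [c3 x hx y hy, c1 x' hx'] at heq
      exact absurd heq.symm (F.ne5 x' hx' x hx y hy hxy).1
    · rw [c3 x hx y hy, c2 x' hx'] at heq
      exact absurd heq.symm (F.ne5 x' hx' x hx y hy hxy).2
    · rw [c3 x hx y hy, c3 x' hx' y' hy'] at heq
      exact F.rc.2 x hx y hy x' hx' y' hy' hxy hxy' heq

end KEM

open KEM in
/-- KE -/
theorem specKE : SpecKE := by
  intro V G c s w w' hno hw _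
  exact ⟨fun h α => mp hno hw h α, fun h => mpr hw h⟩

end Pool.Agent.Lib.MP44a765
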