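import Pool.Agent.Lib.MP_44a765_co.Spec

/-!
# MP_44a765_co: module KEY

Non-adjacent vertices of the same type have at least `ord s` common neighbours.
-/

set_option autoImplicit false

namespace Pool.Agent.Lib.MP44a765

open Finset

namespace KEYM

variable {V : Type}

/-- the graph on the common neighbours with different colours -/
def HH (G : SimpleGraph V) (c : Sym2 V → ℕ) (w : V) (A' : Finset V) :
    SimpleGraph {x // x ∈ A'} where
  Adj x y := G.Adj (x : V) (y : V) ∧ c s(w, (x : V)) ≠ c s(w, (y : V))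
  symm := ⟨fun _ _ h => ⟨h.1.symm, h.2.symm⟩⟩
  loopless := ⟨fun _ h => h.2 rfl⟩

/-- its colouring -/
def cc (c : Sym2 V → ℕ) (A' : Finset V) : Sym2 {x // x ∈ A'} → ℕ := fun p => c (p.map Subtype.val)

theorem cc_mk (c : Sym2 V → ℕ) (A' : Finset V) (x y : {x // x ∈ A'}) :
    cc c A' s(x, y) = c s((x : V), (y : V)) := rfl

theorem sym_val {A' : Finset V} {x y x' y' : {x // x ∈ A'}}
    (h : s((x : V), (y : V)) = s((x' : V), (y' : V))) : s(x, y) = s(x', y') := by
  rw [Sym2.eq_iff] at h ⊢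
  rcases h with ⟨h1, h2⟩ | ⟨h1, h2⟩
  · exact Or.inl ⟨Subtype.ext h1, Subtype.ext h2⟩
  · exact Or.inr ⟨Subtype.ext h1, Subtype.ext h2⟩

/-- a fitting set gives a clique of the new graph -/
theorem clique {G : SimpleGraph V} {c : Sym2 V → ℕ} {s : ℕ} {w w' : V}
    {A A' : Finset V} (hA : ∀ x, x ∈ A ↔ G.Adj w x ∧ G.Adj w' x)
    (hA' : ∀ x, x ∈ A' ↔ x ∈ A ∧ c s(w, x) ≠ c s(w', x)) {α : ℕ} {R : Finset V}
    (hR : Fits G c s w w' α R) :
    ∃ K : Finset {x // x ∈ A'}, K.card = s ∧ RainbowClique (HH G c w A') (cc c A') K ∧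
      ∀ x ∈ K, (x : V) ∈ R := by
  classical
  have hsub : ∀ x ∈ R, x ∈ A' := fun x hx =>
    (hA' x).2 ⟨(hA x).2 (hR.adj x hx), hR.ne4 x hx x hx⟩
  refine ⟨R.subtype fun x => x ∈ A', ?_, ⟨?_, ?_⟩, fun x hx => mem_subtype.1 hx⟩
  · rw [card_subtype, filter_true_of_mem hsub]
    exact hR.card
  · intro x hx y hy hxy
    have hx' : (x : V) ∈ R := mem_subtype.1 hx
    have hy' : (y : V) ∈ R := mem_subtype.1 hy
    have hne : (x : V) ≠ (y : V) := fun h => hxy (Subtype.ext h)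
    exact ⟨hR.rc.1 x hx' y hy' hne, (hR.ne3 x hx' y hy' hne).1⟩
  · intro x hx y hy x' hx' y' hy' hxy hxy' heq
    have h1 : (x : V) ∈ R := mem_subtype.1 hx
    have h2 : (y : V) ∈ R := mem_subtype.1 hy
    have h3 : (x' : V) ∈ R := mem_subtype.1 hx'
    have h4 : (y' : V) ∈ R := mem_subtype.1 hy'
    rw [cc_mk, cc_mk] at heq
    exact sym_val (hR.rc.2 x h1 y h2 x' h3 y' h4 (fun h => hxy (Subtype.ext h))
      (fun h => hxy' (Subtype.ext h)) heq)

/-- no rainbow clique with `s + 1` vertices -/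
theorem none {G : SimpleGraph V} {c : Sym2 V → ℕ} {s : ℕ} {w w' : V}
    {A A' : Finset V} (hno : ¬ HasRainbow G c (s + 2))
    (hA : ∀ x, x ∈ A ↔ G.Adj w x ∧ G.Adj w' x) (hT : SameType c A w w')
    (hA' : ∀ x, x ∈ A' ↔ x ∈ A ∧ c s(w, x) ≠ c s(w', x)) (K : Finset {x // x ∈ A'})
    (hK : K.card = s + 1) : ¬ RainbowClique (HH G c w A') (cc c A') K := by
  classical
  intro hrc
  have hmem : ∀ x ∈ K.map (Function.Embedding.subtype _), ∃ y ∈ K, (y : V) = x := by
    intro x hx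
    obtain ⟨y, hy, h⟩ := mem_map.1 hx
    exact ⟨y, hy, h⟩
  have hwR : w ∉ K.map (Function.Embedding.subtype _) := by
    intro h
    obtain ⟨y, -, hy⟩ := hmem w h
    have h1 := ((hA _).1 ((hA' _).1 y.2).1).1
    rw [hy] at h1
    exact G.loopless.irrefl w h1
  have hAy : ∀ y : {x // x ∈ A'}, (y : V) ∈ A := fun y => ((hA' _).1 y.2).1
  -- colours of the edges at `w`
  have h1 : ∀ x y z : {x // x ∈ A'}, (y : V) ≠ (z : V) → c s(w, (x : V)) ≠ c s((y : V), (z : V)) := by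
    intro x y z hyz h
    have h2 := (hT.2 x (hAy x) y (hAy y) z (hAy z) hyz).1 h
    exact ((hA' _).1 x.2).2 (h.trans h2.symm)
  have h2 : ∀ x ∈ K, ∀ y ∈ K, c s(w, (x : V)) = c s(w, (y : V)) → x = y := by
    intro x hx y hy h
    by_contra hne
    exact (hrc.1 x hx y hy hne).2 h
  refine hno ⟨insert w (K.map (Function.Embedding.subtype _)), ?_, ?_, ?_⟩
  · rw [card_insert_of_notMem hwR, card_map, hK]
  · intro a ha b hb hab
    rcases mem_insert.1 ha with rfl | ha
    · rcases mem_insert.1 hb with rfl | hb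
      · exact absurd rfl hab
      · obtain ⟨y, -, rfl⟩ := hmem b hb
        exact ((hA _).1 (hAy y)).1
    · obtain ⟨x, hx, rfl⟩ := hmem a ha
      rcases mem_insert.1 hb with rfl | hb
      · exact ((hA _).1 (hAy x)).1.symm
      · obtain ⟨y, hy, rfl⟩ := hmem b hb
        exact (hrc.1 x hx y hy fun h => hab (congrArg _ h)).1
  · -- normal form of a pair
    have nf : ∀ a b : V, a ∈ insert w (K.map (Function.Embedding.subtype _)) →
        b ∈ insert w (K.map (Function.Embedding.subtype _)) → a ≠ b →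
        (∃ x ∈ K, s(a, b) = s(w, (x : V))) ∨
        (∃ x ∈ K, ∃ y ∈ K, x ≠ y ∧ s(a, b) = s((x : V), (y : V))) := by
      intro a b ha hb hab
      rcases mem_insert.1 ha with rfl | ha
      · rcases mem_insert.1 hb with rfl | hb
        · exact absurd rfl hab
        · obtain ⟨y, hy, rfl⟩ := hmem b hb
          exact Or.inl ⟨y, hy, rfl⟩
      · obtain ⟨x, hx, rfl⟩ := hmem a ha
        rcases mem_insert.1 hb with rfl | hb
        · exact Or.inl ⟨x, hx, Sym2.eq_swap⟩
        · obtain ⟨y, hy, rfl⟩ := hmem b hb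
          exact Or.inr ⟨x, hx, y, hy, fun h => hab (congrArg _ h), rfl⟩
    intro a ha b hb a' ha' b' hb' hab hab' heq
    rcases nf a b ha hb hab with ⟨x, hx, e1⟩ | ⟨x, hx, y, hy, hxy, e1⟩
    · rcases nf a' b' ha' hb' hab' with ⟨x', hx', e2⟩ | ⟨x', hx', y', hy', hxy', e2⟩
      · rw [e1, e2] at heq ⊢
        rw [h2 x hx x' hx' heq]
      · rw [e1, e2] at heq
        exact absurd heq (h1 x x' y' fun h => hxy' (Subtype.ext h))
    · rcases nf a' b' ha' hb' hab' with ⟨x', hx', e2⟩ | ⟨x', hx', y', hy', hxy', e2⟩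
      · rw [e1, e2] at heq
        exact absurd heq.symm (h1 x' x y fun h => hxy (Subtype.ext h))
      · rw [e1, e2] at heq ⊢
        have h3 := hrc.2 x hx y hy x' hx' y' hy' hxy hxy' heq
        exact congrArg (Sym2.map Subtype.val) h3

end KEYM

open KEYM in
theorem specKEY (hKE : SpecKE) (hGTR : SpecGTR) (hGAD : SpecGAD) : SpecKEY := by
  intro V G c s w w' A hs hno hne hnadj hps hA hT
  classical
  have hfit := (hKE V G c s w w' hno hne hnadj).1 hps
  obtain ⟨A', hA'⟩ : ∃ A' : Finset V, ∀ x, x ∈ A' ↔ x ∈ A ∧ c s(w, x) ≠ c s(w', x) :=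
    ⟨A.filter fun x => c s(w, x) ≠ c s(w', x), fun x => mem_filter⟩
  have hgad : Gad s (HH G c w A') (cc c A') := by
    refine ⟨fun K hK => none hno hA hT hA' K hK, ?_, ?_⟩
    · intro x
      obtain ⟨R, hR⟩ := hfit (c s(w, (x : V)))
      obtain ⟨K, hK1, hK2, hK3⟩ := clique hA hA' hR
      exact ⟨K, hK1, hK2, fun hx => (hR.ne2 x (hK3 x hx)).1 rfl⟩
    · intro α
      obtain ⟨R, hR⟩ := hfit α
      obtain ⟨K, hK1, hK2, hK3⟩ := clique hA hA' hR
      refine ⟨K, hK1, hK2, fun x hx y hy hxy => ?_⟩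
      rw [cc_mk]
      exact hR.ne1 x (hK3 x hx) y (hK3 y hy) fun h => hxy (Subtype.ext h)
  have h1 := hGTR s {x // x ∈ A'} _ _ hgad
  have h2 := (hGAD s hs).2.2 _ h1
  rw [Nat.card_eq_fintype_card, Fintype.card_coe] at h2
  have hsub : A' ⊆ A := fun x hx => ((hA' x).1 hx).1
  refine ⟨h2.trans (card_le_card hsub), ?_⟩
  intro hcard x hx
  have h3 : A' = A := eq_of_subset_of_card_le hsub (by omega)
  rw [← h3] at hx
  exact ((hA' x).1 hx).2

end Pool.Agent.Lib.MP44a765
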