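import Pool.Agent.Lib.MP_44a765_co.Spec

/-!
# LEV: choice of the hubs
-/

set_option autoImplicit false

namespace Pool.Agent.Lib.MP44a765

open Finset

namespace LEVM

/-- the levels -/
def Ev (F : ℕ → ℕ) : ℕ → ℕ
  | 0 => 1
  | i + 1 => max (F (Ev F i)) (Ev F i)

lemma Ev_succ_le (F : ℕ → ℕ) (i : ℕ) : Ev F i ≤ Ev F (i + 1) := le_max_right _ _

lemma Ev_mono (F : ℕ → ℕ) : Monotone (Ev F) := monotone_nat_of_le_succ (Ev_succ_le F)

lemma Ev_pos (F : ℕ → ℕ) (i : ℕ) : 1 ≤ Ev F i := Ev_mono F (Nat.zero_le i)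

lemma F_le (F : ℕ → ℕ) (i : ℕ) : F (Ev F i) ≤ Ev F (i + 1) := le_max_left _ _

open Classical in
/-- hubs of level `i` -/
noncomputable def B (F : ℕ → ℕ) {n : ℕ} (G : SimpleGraph (Fin n)) (i : ℕ) : Finset (Fin n) :=
  univ.filter (fun v => n ≤ Ev F i * (nb G v).card)

lemma mem_B {F : ℕ → ℕ} {n : ℕ} {G : SimpleGraph (Fin n)} {i : ℕ} {v : Fin n} :
    v ∈ B F G i ↔ n ≤ Ev F i * (nb G v).card := by
  classical
  unfold B
  simp

lemma B_mono {F : ℕ → ℕ} {n : ℕ} {G : SimpleGraph (Fin n)} {i j : ℕ} (h : i ≤ j) {v : Fin n}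
    (hv : v ∈ B F G i) : v ∈ B F G j := by
  rw [mem_B] at hv ⊢
  exact hv.trans (Nat.mul_le_mul_right _ (Ev_mono F h))

lemma card_B (hHSK : SpecHSK) (a : ℕ) (F : ℕ → ℕ) {n : ℕ} (G : SimpleGraph (Fin n))
    (hG : G.edgeSet.ncard ≤ a * n) (i : ℕ) : (B F G i).card ≤ 2 * a * Ev F i := by
  classical
  rcases Nat.eq_zero_or_pos n with hn | hn
  · subst hn
    have h1 : (B F G i) = ∅ := by
      ext v
      exact v.elim0
    rw [h1]
    simp
  · have h1 : n * (B F G i).card ≤ n * (2 * a * Ev F i) := by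
      calc n * (B F G i).card = ∑ _v ∈ B F G i, n := by
            rw [Finset.sum_const, smul_eq_mul, mul_comm]
        _ ≤ ∑ v ∈ B F G i, Ev F i * (nb G v).card :=
            Finset.sum_le_sum fun v hv => mem_B.1 hv
        _ ≤ ∑ v, Ev F i * (nb G v).card :=
            Finset.sum_le_sum_of_subset (Finset.subset_univ _)
        _ = Ev F i * (2 * G.edgeSet.ncard) := by rw [← Finset.mul_sum, hHSK n G]
        _ ≤ Ev F i * (2 * (a * n)) := by gcongr
        _ = n * (2 * a * Ev F i) := by ring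
    exact Nat.le_of_mul_le_mul_left h1 hn

open Classical in
/-- the bad set of level `i` -/
noncomputable def S (F : ℕ → ℕ) (D : ℕ) {n : ℕ} (G : SimpleGraph (Fin n)) (i : ℕ) :
    Finset (Fin n) :=
  univ.filter (fun v => (nb G v).card ≤ D ∧
    ∃ x ∈ nb G v, x ∉ B F G i ∧ n ≤ F (Ev F i) * (nb G x).card)

lemma mem_S {F : ℕ → ℕ} {D n : ℕ} {G : SimpleGraph (Fin n)} {i : ℕ} {v : Fin n} :
    v ∈ S F D G i ↔ (nb G v).card ≤ D ∧
      ∃ x ∈ nb G v, x ∉ B F G i ∧ n ≤ F (Ev F i) * (nb G x).card := by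
  classical
  unfold S
  simp

lemma count (F : ℕ → ℕ) (D m : ℕ) {n : ℕ} (G : SimpleGraph (Fin n)) (v : Fin n) :
    (∑ i ∈ range m, if v ∈ S F D G i then 1 else 0) ≤ D := by
  classical
  rw [← Finset.card_filter]
  set I := (range m).filter (fun i => v ∈ S F D G i) with hI
  by_cases hne : I = ∅
  · rw [hne]; simp
  · obtain ⟨i0, hi0⟩ := Finset.nonempty_iff_ne_empty.2 hne
    have hD : (nb G v).card ≤ D := (mem_S.1 (Finset.mem_filter.1 hi0).2).1
    refine le_trans ?_ hD
    have hx : ∀ i ∈ I, ∃ x ∈ nb G v, x ∉ B F G i ∧ x ∈ B F G (i + 1) := by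
      intro i hi
      obtain ⟨x, hx, hx1, hx2⟩ := (mem_S.1 (Finset.mem_filter.1 hi).2).2
      refine ⟨x, hx, hx1, mem_B.2 (hx2.trans (Nat.mul_le_mul_right _ (F_le F i)))⟩
    have : Nonempty (Fin n) := ⟨v⟩
    choose! x hx1 hx2 hx3 using hx
    refine Finset.card_le_card_of_injOn x (fun i hi => hx1 i hi) ?_
    intro i hi j hj hij
    rcases lt_trichotomy i j with h | h | h
    · exfalso
      apply hx2 j hj
      rw [← hij]
      exact B_mono (by omega) (hx3 i hi)
    · exact h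
    · exfalso
      apply hx2 i hi
      rw [hij]
      exact B_mono (by omega) (hx3 j hj)

lemma total (F : ℕ → ℕ) (D m : ℕ) {n : ℕ} (G : SimpleGraph (Fin n)) :
    ∑ i ∈ range m, (S F D G i).card ≤ n * D := by
  classical
  calc ∑ i ∈ range m, (S F D G i).card = ∑ i ∈ range m, ∑ v, (if v ∈ S F D G i then 1 else 0) := by
        apply Finset.sum_congr rfl
        intro i _
        rw [← Finset.card_filter]
        congr 1
        ext v
        simp
    _ = ∑ v, ∑ i ∈ range m, (if v ∈ S F D G i then 1 else 0) := Finset.sum_comm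
    _ ≤ ∑ _v : Fin n, D := Finset.sum_le_sum fun v _ => count F D m G v
    _ = n * D := by simp

lemma exists_level (F : ℕ → ℕ) (q D : ℕ) (hq : 1 ≤ q) {n : ℕ} (G : SimpleGraph (Fin n)) :
    ∃ i ≤ q * D, q * (S F D G i).card ≤ n := by
  classical
  rcases Nat.eq_zero_or_pos D with hD | hD
  · subst hD
    refine ⟨0, by simp, ?_⟩
    have h1 : S F 0 G 0 = ∅ := by
      ext v
      rw [mem_S]
      simp only [Finset.notMem_empty, iff_false, not_and]
      intro h2
      rintro ⟨x, hx, -⟩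
      have h3 : nb G v = ∅ := Finset.card_eq_zero.1 (Nat.le_zero.1 h2)
      rw [h3] at hx
      exact absurd hx (Finset.notMem_empty _)
    rw [h1]
    simp
  · by_contra hcon
    push Not at hcon
    have hpos : 0 < q * D := Nat.mul_pos (by omega) hD
    have h1 : ∑ _i ∈ range (q * D), n < ∑ i ∈ range (q * D), q * (S F D G i).card := by
      apply Finset.sum_lt_sum_of_nonempty
      · exact ⟨0, Finset.mem_range.2 hpos⟩
      · intro i hi
        exact hcon i (Finset.mem_range.1 hi).le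
    rw [Finset.sum_const, Finset.card_range, smul_eq_mul, ← Finset.mul_sum] at h1
    have h2 := Nat.mul_le_mul_left q (total F D (q * D) G)
    have h3 : q * D * n < q * (n * D) := lt_of_lt_of_le h1 h2
    have h4 : q * D * n = q * (n * D) := by ring
    omega

end LEVM

open LEVM in
theorem specLEV (hHSK : SpecHSK) : SpecLEV := by
  classical
  intro a q D F hq
  refine ⟨Ev F (q * D), fun n G hG => ?_⟩
  obtain ⟨i, hi, hS⟩ := exists_level F q D hq G
  refine ⟨Ev F i, B F G i, Ev_pos F i, Ev_mono F hi, card_B hHSK a F G hG i, ?_, ?_⟩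
  · intro v hv
    rw [mem_B] at hv
    omega
  · refine le_trans (Nat.mul_le_mul_left q (Finset.card_le_card ?_)) hS
    intro v hv
    rw [mem_S]
    exact (Finset.mem_filter.1 hv).2

end Pool.Agent.Lib.MP44a765
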