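import Pool.Agent.Lib.MP_44a765_co.Spec

/-!
# MP_44a765_co, module PIG: pigeonhole for traces and types
-/

set_option autoImplicit false

namespace Pool.Agent.Lib.MP44a765

open Finset

theorem specPIG : SpecPIG := by
  classical
  intro n G c B S M hM
  set Φ : Fin n → Finset (Fin n) × Finset (Fin n × Fin n) × Finset (Fin n × Fin n × Fin n) :=
    fun v => (nb G v ∩ B, (B ×ˢ B).filter (fun p => c s(v, p.1) = c s(v, p.2)),
      (B ×ˢ B ×ˢ B).filter (fun p => c s(v, p.1) = c s(p.2.1, p.2.2))) with hΦ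
  have hmaps : ∀ v ∈ S, Φ v ∈ B.powerset ×ˢ (B ×ˢ B).powerset ×ˢ (B ×ˢ B ×ˢ B).powerset := by
    intro v _
    rw [mem_product, mem_product, mem_powerset, mem_powerset, mem_powerset]
    exact ⟨inter_subset_right, filter_subset _ _, filter_subset _ _⟩
  have hcard : (B.powerset ×ˢ (B ×ˢ B).powerset ×ˢ (B ×ˢ B ×ˢ B).powerset).card * M < S.card := by
    have h1 : (B.powerset ×ˢ (B ×ˢ B).powerset ×ˢ (B ×ˢ B ×ˢ B).powerset).card =
        2 ^ (B.card + B.card ^ 2 + B.card ^ 3) := by
      rw [card_product, card_product, card_powerset, card_powerset, card_powerset, card_product,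
        card_product, card_product, ← pow_add, ← pow_add]
      congr 1
      ring
    rw [h1, mul_comm]
    exact hM
  obtain ⟨y, _, hy⟩ := exists_lt_card_fiber_of_mul_lt_card_of_maps_to hmaps hcard
  refine ⟨S.filter (fun x => Φ x = y), filter_subset _ _, hy, ?_⟩
  intro v hv v' hv'
  have h1 : Φ v = Φ v' := (mem_filter.1 hv).2.trans (mem_filter.1 hv').2.symm
  have e1 : nb G v ∩ B = nb G v' ∩ B := congrArg Prod.fst h1
  have e2 : (B ×ˢ B).filter (fun p => c s(v, p.1) = c s(v, p.2)) =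
      (B ×ˢ B).filter (fun p => c s(v', p.1) = c s(v', p.2)) := congrArg (fun p => p.2.1) h1
  have e3 : (B ×ˢ B ×ˢ B).filter (fun p => c s(v, p.1) = c s(p.2.1, p.2.2)) =
      (B ×ˢ B ×ˢ B).filter (fun p => c s(v', p.1) = c s(p.2.1, p.2.2)) :=
    congrArg (fun p => p.2.2) h1
  refine ⟨e1, ?_, ?_⟩
  · intro x hx z hz
    have hxB := (mem_inter.1 hx).2
    have hzB := (mem_inter.1 hz).2
    have h2 := Finset.ext_iff.1 e2 (x, z)
    rw [mem_filter, mem_filter, mem_product] at h2
    constructor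
    · intro h
      exact (h2.1 ⟨⟨hxB, hzB⟩, h⟩).2
    · intro h
      exact (h2.2 ⟨⟨hxB, hzB⟩, h⟩).2
  · intro x hx z hz t ht _
    have hxB := (mem_inter.1 hx).2
    have hzB := (mem_inter.1 hz).2
    have htB := (mem_inter.1 ht).2
    have h2 := Finset.ext_iff.1 e3 (x, z, t)
    rw [mem_filter, mem_filter, mem_product, mem_product] at h2
    constructor
    · intro h
      exact (h2.1 ⟨⟨hxB, hzB, htB⟩, h⟩).2
    · intro h
      exact (h2.2 ⟨⟨hxB, hzB, htB⟩, h⟩).2

end Pool.Agent.Lib.MP44a765
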