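import Pool.Agent.Lib.MP_44a765_co.Spec

/-!
# MP_44a765_co, module STR: many twins
-/

set_option autoImplicit false

namespace Pool.Agent.Lib.MP44a765

open Finset

namespace STRM

theorem ex_of {n : ℕ} (p : Fin n → Prop) [DecidablePred p] (P : ℕ → Prop)
    (h : P (univ.filter p).card) : ∃ S : Finset (Fin n), (∀ v, v ∈ S ↔ p v) ∧ P S.card :=
  ⟨univ.filter p, fun v => by rw [mem_filter]; exact ⟨fun h => h.2, fun h => ⟨mem_univ _, h⟩⟩, h⟩

/-- few vertices of large degree -/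
theorem large_deg (hHSK : SpecHSK) {n a q : ℕ} (ha : 1 ≤ a) (G : SimpleGraph (Fin n))
    (hE : G.edgeSet.ncard ≤ a * n) (S : Finset (Fin n))
    (hS : ∀ v ∈ S, 2 * a * q < (nb G v).card) : q * S.card ≤ n := by
  have h1 : S.card * (2 * a * q) ≤ ∑ v ∈ S, (nb G v).card := by
    calc S.card * (2 * a * q) = ∑ _v ∈ S, 2 * a * q := by rw [sum_const, smul_eq_mul]
      _ ≤ ∑ v ∈ S, (nb G v).card := sum_le_sum fun v hv => (hS v hv).le
  have h2 : ∑ v ∈ S, (nb G v).card ≤ ∑ v, (nb G v).card := sum_le_sum_of_subset (subset_univ _)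
  have h3 := hHSK n G
  have h4 : (2 * a) * (q * S.card) ≤ (2 * a) * n := by
    calc (2 * a) * (q * S.card) = S.card * (2 * a * q) := by ring
      _ ≤ 2 * G.edgeSet.ncard := by omega
      _ ≤ 2 * (a * n) := Nat.mul_le_mul_left _ hE
      _ = (2 * a) * n := by ring
  exact Nat.le_of_mul_le_mul_left h4 (by omega)

end STRM

open STRM

theorem specSTR (hGAD : SpecGAD) (hHSK : SpecHSK) (hLEV : SpecLEV) (hTRC : SpecTRC)
    (hCNT : SpecCNT) (hPIG : SpecPIG) : SpecSTR := by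
  intro s M hs
  obtain ⟨a, ha⟩ : ∃ a : ℕ, a = ord s := ⟨_, rfl⟩
  have ha1 : 1 ≤ a := by rw [ha]; exact (hGAD s hs).2.1
  obtain ⟨q, hq⟩ : ∃ q : ℕ, q = 12 * (2 * a + 1) := ⟨_, rfl⟩
  have hq1 : 1 ≤ q := by omega
  choose f nn hfn using fun b => hTRC s (2 * a * q) q b hs hq1
  obtain ⟨E₀, hE₀⟩ := hLEV a q (2 * a * q) (fun E => f (2 * a * E)) hq1
  obtain ⟨b, hb⟩ : ∃ b : ℕ, b = 2 * a * E₀ := ⟨_, rfl⟩
  refine ⟨(∑ E ∈ range (E₀ + 1), nn (2 * a * E)) + 4 * ((2 * a + 1) * b) +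
    2 * (M * 2 ^ (b + b ^ 2 + b ^ 3)) + 1, ?_⟩
  intro n hn G c hsat hedge
  rw [← ha] at hedge
  obtain ⟨E, B, hE1, hE2, hBc, _, hS1⟩ := hE₀ n G hedge
  have hnn : nn (2 * a * E) ≤ n := by
    have h1 : nn (2 * a * E) ≤ ∑ E ∈ range (E₀ + 1), nn (2 * a * E) :=
      single_le_sum (f := fun E => nn (2 * a * E)) (fun _ _ => Nat.zero_le _)
        (mem_range.2 (by omega))
    omega
  have hS2 := hfn (2 * a * E) n hnn G c hsat B hBc
  have hcnt := hCNT n a G B hedge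
  obtain ⟨S1, hS1m, hS1c⟩ := ex_of _ (fun k => q * k ≤ n) hS1
  obtain ⟨S2, hS2m, hS2c⟩ := ex_of _ (fun k => q * k ≤ n) hS2
  obtain ⟨Gd, hGm, hGc⟩ := ex_of _ (fun k => n ≤ k + _) hcnt
  obtain ⟨X, hXm, hXc⟩ := ex_of _ (fun k => n ≤ Gd.card + (2 * a + 1) * (B.card + k)) hGc
  have hex : ∃ S0 : Finset (Fin n), ∀ v, v ∈ S0 ↔ 2 * a * q < (nb G v).card := by
    classical
    exact ⟨univ.filter (fun v => 2 * a * q < (nb G v).card), fun v => by
      rw [mem_filter]; exact ⟨fun h => h.2, fun h => ⟨mem_univ _, h⟩⟩⟩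
  obtain ⟨S0, hS0m⟩ := hex
  have hS0c : q * S0.card ≤ n := large_deg hHSK ha1 G hedge S0 fun v hv => (hS0m v).1 hv
  have hXc' : q * X.card ≤ 3 * n := by
    classical
    have h1 : X ⊆ S0 ∪ (S1 ∪ S2) := by
      intro v hv
      obtain ⟨hvB, hvt⟩ := (hXm v).1 hv
      rw [mem_union, mem_union]
      by_cases h0 : 2 * a * q < (nb G v).card
      · exact Or.inl ((hS0m v).2 h0)
      · by_cases h2 : ∃ x ∈ nb G v, x ∉ B ∧ n ≤ f (2 * a * E) * (nb G x).card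
        · exact Or.inr (Or.inl ((hS1m v).2 ⟨not_lt.1 h0, h2⟩))
        · refine Or.inr (Or.inr ((hS2m v).2 ⟨hvB, not_lt.1 h0, ?_, by rw [← ha]; exact hvt⟩))
          intro x hx hxB
          by_contra h3
          exact h2 ⟨x, hx, hxB, (not_le.1 h3).le⟩
    have h2 : X.card ≤ S0.card + (S1.card + S2.card) :=
      (card_le_card h1).trans ((card_union_le _ _).trans
        (Nat.add_le_add_left (card_union_le _ _) _))
    calc q * X.card ≤ q * (S0.card + (S1.card + S2.card)) := Nat.mul_le_mul_left _ h2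
      _ = q * S0.card + (q * S1.card + q * S2.card) := by ring
      _ ≤ 3 * n := by omega
  have hXc2 : 4 * ((2 * a + 1) * X.card) ≤ n := by
    have h1 : 3 * (4 * ((2 * a + 1) * X.card)) ≤ 3 * n := by
      calc 3 * (4 * ((2 * a + 1) * X.card)) = q * X.card := by rw [hq]; ring
        _ ≤ 3 * n := hXc'
    omega
  have hBb : B.card ≤ b := by
    rw [hb]
    exact hBc.trans (Nat.mul_le_mul_left _ hE2)
  have hBc2 : (2 * a + 1) * B.card ≤ (2 * a + 1) * b := Nat.mul_le_mul_left _ hBb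
  have hG2 : n ≤ 2 * Gd.card := by
    rw [Nat.mul_add] at hXc
    omega
  have hpow : M * 2 ^ (B.card + B.card ^ 2 + B.card ^ 3) ≤ M * 2 ^ (b + b ^ 2 + b ^ 3) := by
    refine Nat.mul_le_mul_left _ (Nat.pow_le_pow_right (by norm_num) ?_)
    exact add_le_add (add_le_add hBb (Nat.pow_le_pow_left hBb 2)) (Nat.pow_le_pow_left hBb 3)
  obtain ⟨P, hPG, hPc, hP⟩ := hPIG n G c B Gd M (by omega)
  have hP0 : P.Nonempty := card_pos.1 (by omega)
  obtain ⟨v0, hv0⟩ := hP0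
  have hinter : ∀ p ∈ P, nb G p ∩ B = nb G p := fun p hp =>
    inter_eq_left.2 ((hGm p).1 (hPG hp)).2.1
  refine ⟨P, nb G v0 ∩ B, hPc, ?_, ?_, ?_⟩
  · rw [hinter v0 hv0, ((hGm v0).1 (hPG hv0)).2.2, ha]
  · intro p hp x
    rw [(hP v0 hv0 p hp).1, hinter p hp, mem_nb]
  · intro p hp p' hp'
    rw [(hP v0 hv0 p hp).1]
    exact (hP p hp p' hp').2

end Pool.Agent.Lib.MP44a765
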