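import Pool.Agent.Lib.MP_44a765_co.Base

/-!
# MP_44a765_co: the rainbow saturation number of a clique is eventually linear (captain: helper96)

THEOREM.  For every `r ≥ 3` there are integers `a`, `C`, `n₀` with `sat n r = a n + C` for all
`n ≥ n₀`; `a = ord (r - 2)` is the least order of a gadget (`Gad`): an edge coloured graph without
rainbow `K_(r-1)` in which every vertex and every colour is avoided by some rainbow `K_(r-2)`.
Write `s = r - 2 ≥ 1`.  (Published: `sat n r = α_r n + O(1)`; Q1 asks for `2 (r - 2) n + C`.)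

IDEA.  Let `f n = sat n (s + 2)`, `a = ord s`.  `UPA`: `f n ≤ a n`.  `KEY`: if `w, w'` are
non-adjacent vertices of a saturated graph with the same coincidences of colours (`SameType`) then
they have at least `a` common neighbours, and if exactly `a`, then `c (w x) ≠ c (w' x)` for all of
them.  `STR`: in a saturated graph with at most `a n` edges, `n` large, there are many vertices with
the same neighbourhood `T`, `|T| = a`, of the same type (twins).  `CLO`: a twin can be cloned (new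
colours with the same coincidences), so `f (n + 1) ≤ f n + a`.  `DEL`: one of many twins can be
deleted, so `f (n - 1) ≤ f n - a`.  Together `f (n + 1) = f n + a` for all large `n`.

All modules are independent: file `Pool/Agent/Lib/MP_44a765_co/XXX.lean`, import only
`Pool.Agent.Lib.MP_44a765_co.Spec`, namespace `Pool.Agent.Lib.MP44a765`, theorem
`specXXX (hYYY : SpecYYY) .. : SpecXXX` with the hypotheses in the order of deps, own lemmas in a
namespace `XXXM`.  `Base.lean` has `nb`, `mem_nb`, `RainbowClique.mono`, `extend`, `stays`,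
`transfer` (proved).
-/

set_option autoImplicit false

namespace Pool.Agent.Lib.MP44a765

open Finset

/-- A gadget: no rainbow clique with `s + 1` vertices; for every vertex `x` and every colour `α`
there is a rainbow clique with `s` vertices without `x`, and one without edges of colour `α`. -/
structure Gad (s : ℕ) {A : Type} (G : SimpleGraph A) (c : Sym2 A → ℕ) : Prop where
  no : ∀ K : Finset A, K.card = s + 1 → ¬ RainbowClique G c K
  vx : ∀ x : A, ∃ K : Finset A, K.card = s ∧ RainbowClique G c K ∧ x ∉ K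
  cl : ∀ α : ℕ, ∃ K : Finset A, K.card = s ∧ RainbowClique G c K ∧
    ∀ x ∈ K, ∀ y ∈ K, x ≠ y → c s(x, y) ≠ α

/-- there is a gadget with `k` vertices -/
def HasGad (s k : ℕ) : Prop := ∃ (G : SimpleGraph (Fin k)) (c : Sym2 (Fin k) → ℕ), Gad s G c

/-- the least order of a gadget -/
noncomputable def ord (s : ℕ) : ℕ := sInf {k | HasGad s k}

/-- `w` and `w'` have the same coincidences of colours on `A`. -/
def SameType {V : Type} (c : Sym2 V → ℕ) (A : Finset V) (w w' : V) : Prop :=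
  (∀ x ∈ A, ∀ y ∈ A, (c s(w, x) = c s(w, y) ↔ c s(w', x) = c s(w', y))) ∧
  (∀ x ∈ A, ∀ y ∈ A, ∀ z ∈ A, y ≠ z → (c s(w, x) = c s(y, z) ↔ c s(w', x) = c s(y, z)))

/-- `R` and the non-adjacent vertices `w`, `w'` form a rainbow clique if the edge `w w'` is inserted
with colour `α`. -/
structure Fits {V : Type} (G : SimpleGraph V) (c : Sym2 V → ℕ) (s : ℕ) (w w' : V) (α : ℕ)
    (R : Finset V) : Prop where
  card : R.card = s
  rc : RainbowClique G c R
  adj : ∀ x ∈ R, G.Adj w x ∧ G.Adj w' x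
  ne1 : ∀ x ∈ R, ∀ y ∈ R, x ≠ y → c s(x, y) ≠ α
  ne2 : ∀ x ∈ R, c s(w, x) ≠ α ∧ c s(w', x) ≠ α
  ne3 : ∀ x ∈ R, ∀ y ∈ R, x ≠ y → c s(w, x) ≠ c s(w, y) ∧ c s(w', x) ≠ c s(w', y)
  ne4 : ∀ x ∈ R, ∀ y ∈ R, c s(w, x) ≠ c s(w', y)
  ne5 : ∀ x ∈ R, ∀ y ∈ R, ∀ z ∈ R, y ≠ z → c s(w, x) ≠ c s(y, z) ∧ c s(w', x) ≠ c s(y, z)

/-- the pair `w w'` is saturated -/
def PairSat {V : Type} (G : SimpleGraph V) (c : Sym2 V → ℕ) (s : ℕ) (w w' : V) : Prop :=
  ∀ c' : Sym2 V → ℕ, (∀ e, e ≠ s(w, w') → c' e = c e) →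
    HasRainbow (G ⊔ SimpleGraph.edge w w') c' (s + 2)

/-- KE (deps: none; about 160 lines).
Proof.  (→) Given `α`, apply the hypothesis to `c' = c` except `c' s(w, w') = α`.  Let `K` be the
rainbow clique of `G + w w'` with `s + 2` vertices.  If not both of `w, w'` are in `K` then all pairs
of `K` are different from `s(w, w')`, so `K` is a rainbow clique of `G` for `c`: contradiction.  Let
`R = K` without `w, w'`; all the fields of `Fits` compare two different pairs of `K` (one of them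
may be `s(w, w')`, colour `α`).  (←) Given `c'`, take `α = c' s(w, w')` and `R`; `K = R ∪ {w, w'}`
(`w, w' ∉ R` by `adj`), `s + 2` vertices; pairs: inside `R`, `w x`, `w' x`, `w w'`; `c' = c` on all
pairs but `s(w, w')`; different pairs have different colours by `rc`, `ne1` .. `ne5`. -/
def SpecKE : Prop :=
  ∀ (V : Type) (G : SimpleGraph V) (c : Sym2 V → ℕ) (s : ℕ) (w w' : V),
    ¬ HasRainbow G c (s + 2) → w ≠ w' → ¬ G.Adj w w' →
    (PairSat G c s w w' ↔ ∀ α : ℕ, ∃ R : Finset V, Fits G c s w w' α R)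

/-- GTR (deps: none; about 60 lines).  Gadgets on any finite type.
Proof.  Transport `G` and `c` along an equivalence `A ≃ Fin (Nat.card A)` (as in `transfer` in
`Base.lean`, which may be adapted). -/
def SpecGTR : Prop :=
  ∀ (s : ℕ) (A : Type) [Finite A] (G : SimpleGraph A) (c : Sym2 A → ℕ), Gad s G c →
    HasGad s (Nat.card A)

/-- GAD (deps: GTR; about 80 lines).  Gadgets exist.
Proof.  On `Fin s × Bool`, `(i, b) ~ (j, b')` iff `i ≠ j`, all edges with different colours
(`exists_injective_nat`): a clique has at most `s` vertices; for `x = (i, b)` the clique of all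
`(j, !b)` avoids `x`, hence all edges at `x`; a colour is the colour of at most one pair `s(x, y)`:
avoid `x` (if it is the colour of no pair, any clique).  So `{k | HasGad s k}` is not empty and
`ord s` belongs to it (`Nat.sInf_mem`).  A gadget has at least `s ≥ 1` vertices by `cl`. -/
def SpecGAD : Prop := ∀ s : ℕ, 1 ≤ s → HasGad s (ord s) ∧ 1 ≤ ord s ∧
  ∀ k, HasGad s k → ord s ≤ k

/-- KEY (deps: KE, GTR, GAD; about 150 lines).
Proof.  Let `X₀ = {x ∈ A | c(w x) = c(w' x)}`, `A'' = A \ X₀`, and let `H` be the graph on `A''`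
with `x ~ y` iff `G.Adj x y` and `c(w x) ≠ c(w y)`, colouring `c`.  (1) If `x ∈ A`, `y ≠ z ∈ A` and
`c(w x) = c(y z)` then, by the same type, `c(w' x) = c(y z)`, so `x ∈ X₀`.  (2) `H` has no rainbow
clique `R` with `s + 1` vertices: otherwise `R ∪ {w}` is a rainbow clique of `G` with `s + 2`
vertices: `c(w x) ≠ c(w y)` by the definition of `H`, `c(w x) ≠ c(y z)` by (1).  (3) Let `R` be given
by `KE` for `α`: `R ⊆ A` by `adj`, `R ∩ X₀ = ∅` by `ne4` (`y = x`), and by `ne3` `R` is a clique of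
`H`, rainbow.  For a colour `α` this is `cl`; for a vertex `x` take `α = c(w x)`: `x ∉ R` by `ne2`.
So `H` is a gadget, and `ord s ≤ |A''| ≤ |A|` (`GTR` for the subtype, `GAD`).  If `|A| = ord s` then
`A'' = A`, so `X₀` is empty. -/
def SpecKEY : Prop :=
  ∀ (V : Type) (G : SimpleGraph V) (c : Sym2 V → ℕ) (s : ℕ) (w w' : V) (A : Finset V), 1 ≤ s →
    ¬ HasRainbow G c (s + 2) → w ≠ w' → ¬ G.Adj w w' → PairSat G c s w w' →
    (∀ x, x ∈ A ↔ G.Adj w x ∧ G.Adj w' x) → SameType c A w w' →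
    ord s ≤ A.card ∧ (A.card = ord s → ∀ x ∈ A, c s(w, x) ≠ c s(w', x))

/-- TRA (deps: none; about 60 lines).
Proof.  Transport along an equivalence `Fin (Nat.card V) ≃ V` with `transfer` (`Base.lean`): the
graph `G.comap e`, the colouring `fun p => c (p.map e)`; the number of edges is the same; then
`Nat.sInf_le`. -/
def SpecTRA : Prop :=
  ∀ (V : Type) [Finite V] (r : ℕ) (G : SimpleGraph V) (c : Sym2 V → ℕ), Saturated r G c →
    sat (Nat.card V) r ≤ G.edgeSet.ncard

/-- CLO (deps: KE, KEY; about 250 lines).  Cloning a vertex.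
Proof.  Let `N` be larger than all colours `c e` (`V` is finite).  `G'` on `Option V`:
`some x ~ some y` iff `G.Adj x y`, `none ~ some x` iff `x ∈ T`; colours `c'`: `c` inside `V`,
`c'(none, x) = N + c(w x)`.  By KEY (for `w, v`, `A = T`) `c(w x) ≠ c(v x)` for `x ∈ T`; so
`c(w x) ≠ c(y z)` for `x, y, z ∈ T`, `y ≠ z` (otherwise `c(v x) = c(y z)` by the same type).
(1) No rainbow `K_(s+2)`: a clique without `none` is in `G`.  If `none ∈ K`, `R = K \ {none} ⊆ T`;
the `c(w x)`, `x ∈ R`, are different, and `c(w x) ≠ c(y z)`, so `R ∪ {w}` is a rainbow clique of `G`: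
contradiction.  (2) Saturated: pairs `u, u'` in `V`: the rainbow clique of `G + u u'` (for the
restriction of the colouring to `V`) is one of `G' + u u'`.  Pairs `none, u` with `u ∉ T`: use KE
for `G'` (by (1)), so for `α` we need `R'` with `Fits G' c' s none (some u) α R'`.  If `u ≠ w`:
`w, u` are non-adjacent and different.  If `α` is not one of the new colours `N + c(w x)`, `x ∈ T`,
let `R` be given by KE (in `G`) for the pair `w, u` and `α`; if `α = N + c(w x₀)` take `R` for the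
pair `w, u` and `c(w x₀)`: then `c(w x) ≠ c(w x₀)` for `x ∈ R` by `ne2`.  In both cases `R' = R`
(mapped by `some`) fits: new colours are `≥ N`, old ones `< N`.  If `u = w`: the same with the pair
`v, w`: take `R` for the pair `v, w` and `α`, resp. `c(w x₀)`. -/
def SpecCLO : Prop :=
  ∀ (V : Type) [Finite V] (G : SimpleGraph V) (c : Sym2 V → ℕ) (s : ℕ) (w v : V) (T : Finset V),
    1 ≤ s → Saturated (s + 2) G c → w ≠ v → (∀ x, x ∈ T ↔ G.Adj w x) →
    (∀ x, x ∈ T ↔ G.Adj v x) → T.card = ord s → SameType c T w v →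
    ∃ (G' : SimpleGraph (Option V)) (c' : Sym2 (Option V) → ℕ), Saturated (s + 2) G' c' ∧
      G'.edgeSet.ncard = G.edgeSet.ncard + ord s

/-- DEL (deps: KEY; about 220 lines).  Deleting one of many twins.
Proof.  Let `G_w` be the induced graph on `V \ {w}`.  Two different members `p, p'` of `P` are
non-adjacent (`p' ∉ T` as `p'` is not adjacent to itself) with common neighbours `T`, so by KEY
`c(p x) ≠ c(p' x)` for `x ∈ T`.  No rainbow `K_(s+2)`: clear.  Let `u, u' ≠ w` be non-adjacent,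
`c'` given (extend it to the pairs of `V` by `c` on the pairs containing `w`), `α = c'(u u')`.  Let
`K` be a rainbow clique of `G + u u'` with `s + 2` vertices.  If `w ∉ K` it is the one wanted.  Let
`w ∈ K`; then `K \ {w} ⊆ T` (all other vertices of `K` are adjacent to `w` in `G`), and `u, u' ∈ K`
(otherwise `K` is a rainbow clique of `G`), so `u, u' ∈ T`.  For every `x ∈ T` at most one `p ∈ P` has
`c(p x) = α`; as `|P \ {w}| > |T|` there is `p ∈ P`, `p ≠ w`, with `c(p x) ≠ α` for all `x ∈ T`.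
`p ∉ T` so `p ∉ K`, `p ≠ u, u'`.  `K' = (K \ {w}) ∪ {p}` is a clique of `G + u u'`, and rainbow: `c(p x) ≠ c(p y)`
and `c(p x) ≠ c(y z)` (`y z` not the pair `u u'`) follow from the same for `w` by `SameType`, and
`c(p x) ≠ α`.  Edges: those at `w` are the `|T|` pairs `s(w, x)`, `x ∈ T`. -/
def SpecDEL : Prop :=
  ∀ (V : Type) [Finite V] (G : SimpleGraph V) (c : Sym2 V → ℕ) (s : ℕ) (w : V) (P T : Finset V),
    1 ≤ s → Saturated (s + 2) G c → ord s + 2 ≤ P.card → T.card = ord s → w ∈ P →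
    (∀ p ∈ P, ∀ x, x ∈ T ↔ G.Adj p x) → (∀ p ∈ P, ∀ p' ∈ P, SameType c T p p') →
    Saturated (s + 2) (G.induce {x | x ≠ w})
      (fun e : Sym2 {x | x ≠ w} => c (e.map Subtype.val)) ∧
    (G.induce {x | x ≠ w}).edgeSet.ncard + ord s = G.edgeSet.ncard

/-- UPA (deps: GAD, KE; helper96; about 200 lines).  The upper bound. -/
def SpecUPA : Prop :=
  ∀ (s n : ℕ), 1 ≤ s → ∃ (G : SimpleGraph (Fin n)) (c : Sym2 (Fin n) → ℕ),
    Saturated (s + 2) G c ∧ G.edgeSet.ncard ≤ ord s * n

/-- HSK (deps: none; about 40 lines).  Handshake lemma. -/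
def SpecHSK : Prop :=
  ∀ (n : ℕ) (G : SimpleGraph (Fin n)), ∑ v, (nb G v).card = 2 * G.edgeSet.ncard

open Classical in
/-- LEV (deps: HSK; about 130 lines).  Choice of the hubs.
Proof.  `E 0 = 1`, `E (i + 1) = max (F (E i)) (E i)`, `E₀ = E (q D)`; `E i ≥ 1` is increasing.  Let
`B i = {v | n ≤ E i * deg v}`; by HSK `n |B i| ≤ E i Σ deg v ≤ 2 a n (E i)`, so `|B i| ≤ 2 a (E i)` (for
`n > 0`; the case `n = 0` is trivial).  The `B i` are increasing.  Let `S i` be the set in the last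
conclusion for `E = E i`, `B = B i`; if `v ∈ S i` then `nb v` meets `B (i + 1) \ B i`.  These sets are
disjoint for different `i`, so every `v` with at most `D` neighbours is in at most `D` of the `S i`,
`i < q D`: `Σ_(i < q D) |S i| ≤ D n`.  If `D ≥ 1` (and `q ≥ 1`) there is `i < q D` with
`q D |S i| ≤ D n`, so `q |S i| ≤ n`.  If `D = 0`, `S 0` is empty. -/
def SpecLEV : Prop :=
  ∀ (a q D : ℕ) (F : ℕ → ℕ), 1 ≤ q → ∃ E₀ : ℕ, ∀ (n : ℕ) (G : SimpleGraph (Fin n)),
    G.edgeSet.ncard ≤ a * n → ∃ (E : ℕ) (B : Finset (Fin n)), 1 ≤ E ∧ E ≤ E₀ ∧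
      B.card ≤ 2 * a * E ∧ (∀ v, v ∉ B → E * (nb G v).card < n) ∧
      q * (univ.filter (fun v => (nb G v).card ≤ D ∧
        ∃ x ∈ nb G v, x ∉ B ∧ n ≤ F E * (nb G x).card)).card ≤ n

/-- GRE (deps: none; about 130 lines).  Greedy choice.
Proof.  Induction on `m`: choose `v` in the present set `W'`; remove from `W'` the vertices `v' = v`,
`v'` adjacent to `v`, and the `v'` adjacent to some `x ∈ nb v`, `x ∉ B`: with `k` the number of
removed vertices, `f k ≤ f (1 + D) + Σ_x f |nb x| ≤ f (1 + D) + D n`.  After `m` steps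
`f (removed) ≤ m (f (1 + D) + D n)`; by hypothesis `m (f (1 + D) + D n) < f |W|`, so one can
choose `m` vertices. -/
def SpecGRE : Prop :=
  ∀ (n : ℕ) (G : SimpleGraph (Fin n)) (B W : Finset (Fin n)) (m D f : ℕ),
    (∀ v ∈ W, (nb G v).card ≤ D ∧ ∀ x ∈ nb G v, x ∉ B → f * (nb G x).card ≤ n) →
    m * (f * (1 + D) + D * n) < f * W.card →
    ∃ S ⊆ W, S.card = m ∧ ∀ v ∈ S, ∀ v' ∈ S, v ≠ v' → ¬ G.Adj v v' ∧
      ∀ x, G.Adj v x → G.Adj v' x → x ∈ B

/-- PIG (deps: none; about 80 lines).  Pigeonhole for traces and types.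
Proof.  Map `v ∈ S` to `(nb v ∩ B, {(x, y) ∈ B ×ˢ B | c(v x) = c(v y)},
{(x, y, z) ∈ B ×ˢ B ×ˢ B | c(v x) = c(y z)})`, a member of
`B.powerset ×ˢ (B ×ˢ B).powerset ×ˢ (B ×ˢ B ×ˢ B).powerset`, which has
`2 ^ (|B| + |B|² + |B|³)` elements; `Finset.exists_lt_card_fiber_of_mul_lt_card_of_maps_to`. -/
def SpecPIG : Prop :=
  ∀ (n : ℕ) (G : SimpleGraph (Fin n)) (c : Sym2 (Fin n) → ℕ) (B S : Finset (Fin n)) (M : ℕ),
    M * 2 ^ (B.card + B.card ^ 2 + B.card ^ 3) < S.card →
    ∃ P ⊆ S, M < P.card ∧ ∀ v ∈ P, ∀ v' ∈ P, nb G v ∩ B = nb G v' ∩ B ∧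
      SameType c (nb G v ∩ B) v v'

open Classical in
/-- TRC (deps: KEY, GRE, PIG; about 100 lines).  Few vertices have a small trace on the hubs.
Proof.  `m = 2 ^ (b + b² + b³) + 1`, `f = 2 q m D + 1`, `n₀ = 2 q m (1 + D) + 1`.  Let `W` be
the set and suppose `q |W| > n`.  Then `2 q f |W| > 2 f n ≥ 2 q m D n + f n`.. more precisely:
`f |W| > m (f (1 + D) + D n)` because `2 q m f (1 + D) ≤ f n` and `2 q m D n ≤ f n`.  By GRE there is
`S ⊆ W` with `m` members; by PIG (`M = 1`; `|B| ≤ b`) two different ones `v, v'` with the same trace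
`T = nb v ∩ B = nb v' ∩ B` and the same type on `T`.  Their common neighbours are in `B`, so they are
exactly the elements of `T`.  They are non-adjacent and the pair is saturated, so by KEY
`ord s ≤ |T|`, a contradiction. -/
def SpecTRC : Prop :=
  ∀ (s D q b : ℕ), 1 ≤ s → 1 ≤ q → ∃ f n₀ : ℕ, ∀ n ≥ n₀, ∀ (G : SimpleGraph (Fin n))
    (c : Sym2 (Fin n) → ℕ), Saturated (s + 2) G c → ∀ B : Finset (Fin n), B.card ≤ b →
    q * (univ.filter (fun v => v ∉ B ∧ (nb G v).card ≤ D ∧
      (∀ x ∈ nb G v, x ∉ B → f * (nb G x).card ≤ n) ∧ (nb G v ∩ B).card < ord s)).card ≤ n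

open Classical in
/-- CNT (deps: HSK; about 130 lines).  Counting edges.
Proof.  Let `d v = |nb v ∩ B|`, `e v = |nb v \ B|`, so `|nb v| = d v + e v`.  Counting the edges between
`B` and its complement: `Σ_(v ∈ B) e v = Σ_(v ∉ B) d v`.  So by HSK
`2 a n ≥ Σ_v |nb v| ≥ Σ_(v ∈ B) e v + Σ_(v ∉ B) (d v + e v) = Σ_(v ∉ B) (2 d v + e v)`.  For `v ∉ B`
with `d v ≥ a` not in the first set (`Good`): `2 d v + e v ≥ 2 a + 1`; for `v` in `Good` it is
`2 a`.  If `Y` is the set of `v ∉ B` with `d v ≥ a` not in `Good`, and `X` the second set, then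
`|B| + |X| + |Y| + |Good| = n` and `2 a n ≥ 2 a |Good| + (2 a + 1) |Y|`, so
`|Y| ≤ 2 a (|B| + |X|)`, which gives the claim. -/
def SpecCNT : Prop :=
  ∀ (n a : ℕ) (G : SimpleGraph (Fin n)) (B : Finset (Fin n)), G.edgeSet.ncard ≤ a * n →
    n ≤ (univ.filter (fun v => v ∉ B ∧ nb G v ⊆ B ∧ (nb G v).card = a)).card +
      (2 * a + 1) * (B.card + (univ.filter (fun v => v ∉ B ∧ (nb G v ∩ B).card < a)).card)

/-- STR (deps: GAD, HSK, LEV, TRC, CNT, PIG; about 150 lines).  Many twins.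
Proof.  `a = ord s ≥ 1`, `q = 12 (2 a + 1)`, `D = 2 a q`.  For `b` let `f_b`, `n_b` be given by TRC
(`s, D, q, b`).  LEV with `F E = f_(2 a E)` gives `E₀`.  Let `n` be at least all `n_(2 a E)`, `E ≤ E₀`, at
least `4 (2 a + 1) 2 a E₀`, and larger than `2 M 2 ^ (b + b² + b³)` with `b = 2 a E₀`.  Let `E, B` be
given by LEV.  Let `X` be the set of `v ∉ B` with `|nb v ∩ B| < a`.  It is contained in the union of
`{v | D < |nb v|}` (at most `n / q` elements by HSK: `D |..| ≤ 2 a n`), the set of LEV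
(`q |..| ≤ n`) and the set of TRC for `b = 2 a E` (`q |..| ≤ n`; for `v` not in the first two sets
and `x ∈ nb v`, `x ∉ B`, not `n ≤ f |nb x|`).  So `q |X| ≤ 3 n`, `4 (2 a + 1) |X| ≤ n`, and by CNT at
least `n / 2` vertices `v` have `nb v ⊆ B`, `|nb v| = a`.  PIG for this set gives `P`, and
`T = nb v ∩ B = nb v`. -/
def SpecSTR : Prop :=
  ∀ (s M : ℕ), 1 ≤ s → ∃ n₀ : ℕ, ∀ n ≥ n₀, ∀ (G : SimpleGraph (Fin n))
    (c : Sym2 (Fin n) → ℕ), Saturated (s + 2) G c → G.edgeSet.ncard ≤ ord s * n →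
    ∃ P T : Finset (Fin n), M < P.card ∧ T.card = ord s ∧
      (∀ p ∈ P, ∀ x, x ∈ T ↔ G.Adj p x) ∧ (∀ p ∈ P, ∀ p' ∈ P, SameType c T p p')

/-- FIN (deps: TRA, CLO, DEL, UPA, STR; about 90 lines).  The theorem.
Proof.  Let `a = ord s`, `f n = sat n (s + 2)`.  By UPA the set in the definition of `sat` is not
empty, so there is a saturated graph on `Fin n` with `f n ≤ a n` edges (`Nat.sInf_mem`).  For
`n ≥ n₀` (STR, `M = a + 2`) it has `P`, `T`.  CLO with two members of `P` and TRA (`Nat.card (Option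
(Fin n)) = n + 1`): `f (n + 1) ≤ f n + a`.  DEL and TRA (`Nat.card {x // x ≠ w} = n - 1`):
`f (n - 1) + a ≤ f n` for `n ≥ n₀`, `n ≥ 1`.  So `f (n + 1) = f n + a` for `n ≥ n₀`, and
`C = f n₀ - a n₀`. -/
def SpecFIN : Prop :=
  ∀ s : ℕ, 1 ≤ s → ∃ (C : ℤ) (n₀ : ℕ), ∀ n ≥ n₀, (sat n (s + 2) : ℤ) = ord s * n + C

end Pool.Agent.Lib.MP44a765
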