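import Pool.Agent.Lib.MP_44a765_co.Spec

/-!
# MP_44a765_co, module TRA (helper89): saturated graphs on any finite type
-/

set_option autoImplicit false

namespace Pool.Agent.Lib.MP44a765

open Finset

namespace TRAM

/-- the saturated property is transported along an equivalence -/
theorem saturated_comap {V W : Type} (e : V ≃ W) (r : ℕ) {G : SimpleGraph W} {c : Sym2 W → ℕ}
    (h : Saturated r G c) : Saturated r (G.comap e) (fun p => c (p.map e)) := by
  classical
  unfold Saturated at h ⊢
  refine ⟨fun h1 => h.1 ((transfer e r).mp h1), ?_⟩
  intro u v huv hadj c' hc'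
  have h2 := h.2 (e u) (e v) (fun h3 => huv (e.injective h3)) hadj (fun p => c' (p.map e.symm)) ?_
  · have h3 := (transfer (G := G ⊔ SimpleGraph.edge (e u) (e v))
      (c := fun p => c' (p.map e.symm)) e r).mpr h2
    have h4 : (G ⊔ SimpleGraph.edge (e u) (e v)).comap e = G.comap e ⊔ SimpleGraph.edge u v := by
      ext a b
      simp only [SimpleGraph.comap_adj, SimpleGraph.sup_adj, SimpleGraph.edge_adj,
        e.injective.eq_iff, ne_eq]
    have h5 : (fun p : Sym2 V => (fun q : Sym2 W => c' (q.map e.symm)) (p.map e)) = c' := by
      funext p
      show c' ((p.map e).map e.symm) = c' p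
      rw [Sym2.map_map]
      have h6 : (e.symm ∘ e : V → V) = id := by
        funext x
        exact e.symm_apply_apply x
      rw [h6, Sym2.map_id, id]
    rw [h4, h5] at h3
    exact h3
  · intro p hp
    have h7 : p.map e.symm ≠ s(u, v) := by
      intro h8
      apply hp
      have h9 := congrArg (Sym2.map e) h8
      rw [Sym2.map_map] at h9
      have h6 : (e ∘ e.symm : W → W) = id := by
        funext x
        exact e.apply_symm_apply x
      rw [h6, Sym2.map_id, id] at h9
      rw [h9]
      rfl
    show c' (p.map e.symm) = c p
    rw [hc' _ h7]
    show c ((p.map e.symm).map e) = c p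
    rw [Sym2.map_map]
    have h6 : (e ∘ e.symm : W → W) = id := by
      funext x
      exact e.apply_symm_apply x
    rw [h6, Sym2.map_id, id]

/-- the number of edges does not change -/
theorem ncard_comap {V W : Type} (e : V ≃ W) (G : SimpleGraph W) :
    (G.comap e).edgeSet.ncard = G.edgeSet.ncard := by
  classical
  have h : G.edgeSet = Sym2.map e '' (G.comap e).edgeSet := by
    ext p
    constructor
    · intro hp
      refine ⟨p.map e.symm, ?_, ?_⟩
      · revert hp
        induction p using Sym2.ind with
        | _ a b =>
          intro hp
          rw [SimpleGraph.mem_edgeSet] at hp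
          show (G.comap e).Adj (e.symm a) (e.symm b)
          show G.Adj (e (e.symm a)) (e (e.symm b))
          rw [e.apply_symm_apply, e.apply_symm_apply]
          exact hp
      · rw [Sym2.map_map]
        have h6 : (e ∘ e.symm : W → W) = id := by
          funext x
          exact e.apply_symm_apply x
        rw [h6, Sym2.map_id, id]
    · rintro ⟨q, hq, rfl⟩
      revert hq
      induction q using Sym2.ind with
      | _ a b =>
        intro hq
        exact hq
  rw [h]
  exact (Set.ncard_image_of_injective _ (Sym2.map.injective e.injective)).symm

end TRAM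

theorem specTRA : SpecTRA := by
  intro V _ r G c h
  classical
  have e : Fin (Nat.card V) ≃ V := (Finite.equivFin V).symm
  refine Nat.sInf_le ?_
  exact ⟨G.comap e, fun p => c (p.map e), TRAM.saturated_comap e r h, TRAM.ncard_comap e G⟩

end Pool.Agent.Lib.MP44a765
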