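import Pool.Agent.Lib.MP_44a765_co.Spec

/-!
# TRC: few vertices have a small trace on the hubs (author: helper47)
-/

set_option autoImplicit false

namespace Pool.Agent.Lib.MP44a765

open Finset

open Classical in
theorem specTRC (hKEY : SpecKEY) (hGRE : SpecGRE) (hPIG : SpecPIG) : SpecTRC := by
  intro s D q b hs hq
  obtain ⟨m, hm⟩ : ∃ m, m = 2 ^ (b + b ^ 2 + b ^ 3) + 1 := ⟨_, rfl⟩
  obtain ⟨f, hf⟩ : ∃ f, f = 2 * q * m * D + 1 := ⟨_, rfl⟩
  refine ⟨f, 2 * q * m * (1 + D) + 1, ?_⟩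
  intro n hn G c hsat B hB
  obtain ⟨W, hW⟩ : ∃ W : Finset (Fin n), W = univ.filter (fun v => v ∉ B ∧ (nb G v).card ≤ D ∧
      (∀ x ∈ nb G v, x ∉ B → f * (nb G x).card ≤ n) ∧ (nb G v ∩ B).card < ord s) := ⟨_, rfl⟩
  rw [← hW]
  by_contra hcon
  rw [not_le] at hcon
  have hWm : ∀ v ∈ W, (nb G v).card ≤ D ∧ (∀ x ∈ nb G v, x ∉ B → f * (nb G x).card ≤ n) ∧
      (nb G v ∩ B).card < ord s := by
    intro v hv
    rw [hW, mem_filter] at hv
    exact hv.2.2
  have hf0 : 0 < f := by omega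
  have hlt : m * (f * (1 + D) + D * n) < f * W.card := by
    have h1 : 2 * q * m * (1 + D) ≤ n := by omega
    have h2 : 2 * q * m * D ≤ f := by omega
    have h3 : f * (2 * q * m * (1 + D)) ≤ f * n := Nat.mul_le_mul_left f h1
    have h4 : (2 * q * m * D) * n ≤ f * n := Nat.mul_le_mul_right n h2
    have h5 : f * n < f * (q * W.card) := Nat.mul_lt_mul_of_pos_left hcon hf0
    have h6 : (2 * q) * (m * (f * (1 + D) + D * n)) < (2 * q) * (f * W.card) := by
      calc (2 * q) * (m * (f * (1 + D) + D * n))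
          = f * (2 * q * m * (1 + D)) + (2 * q * m * D) * n := by ring
        _ ≤ f * n + f * n := Nat.add_le_add h3 h4
        _ < f * (q * W.card) + f * (q * W.card) := Nat.add_lt_add h5 h5
        _ = (2 * q) * (f * W.card) := by ring
    exact Nat.lt_of_mul_lt_mul_left h6
  obtain ⟨S, hSW, hSm, hS⟩ := hGRE n G B W m D f
    (fun v hv => ⟨(hWm v hv).1, (hWm v hv).2.1⟩) hlt
  have hpow : 1 * 2 ^ (B.card + B.card ^ 2 + B.card ^ 3) < S.card := by
    rw [one_mul, hSm, hm]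
    refine Nat.lt_succ_of_le (Nat.pow_le_pow_right (by norm_num) ?_)
    exact Nat.add_le_add (Nat.add_le_add hB (Nat.pow_le_pow_left hB 2)) (Nat.pow_le_pow_left hB 3)
  obtain ⟨P, hPS, hPc, hP⟩ := hPIG n G c B S 1 hpow
  obtain ⟨v, hv, v', hv', hne⟩ := one_lt_card.1 hPc
  obtain ⟨htr, hty⟩ := hP v hv v' hv'
  obtain ⟨hnadj, hcom⟩ := hS v (hPS hv) v' (hPS hv') hne
  have hA : ∀ x, x ∈ nb G v ∩ B ↔ G.Adj v x ∧ G.Adj v' x := by
    intro x
    constructor
    · intro hx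
      have hx' := hx
      rw [htr] at hx'
      exact ⟨mem_nb.1 (mem_inter.1 hx).1, mem_nb.1 (mem_inter.1 hx').1⟩
    · rintro ⟨h1, h2⟩
      exact mem_inter.2 ⟨mem_nb.2 h1, hcom x h1 h2⟩
  have hkey := (hKEY (Fin n) G c s v v' (nb G v ∩ B) hs hsat.1 hne hnadj
    (hsat.2 v v' hne hnadj) hA hty).1
  have := (hWm v (hSW (hPS hv))).2.2
  omega

end Pool.Agent.Lib.MP44a765
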