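import Pool.Agent.Lib.MP_44a765_co.Spec

/-!
# MP_44a765_co: the upper bound (module UPA)
-/

set_option autoImplicit false

namespace Pool.Agent.Lib.MP44a765

open Finset

namespace UPAM

variable {X : Type} (G : SimpleGraph X) (c : Sym2 X → ℕ) (O : Type)

/-- the gadget joined completely to an independent set -/
def bigG : SimpleGraph (X ⊕ O) where
  Adj
    | .inl x, .inl y => G.Adj x y
    | .inl _, .inr _ => True
    | .inr _, .inl _ => True
    | .inr _, .inr _ => False
  symm := ⟨by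
    rintro (x | u) (y | v) h
    · exact (G.adj_comm _ _).mp h
    · exact h
    · exact h
    · exact h⟩
  loopless := ⟨by
    rintro (x | u) h
    · exact (G.ne_of_adj h) rfl
    · exact h⟩

/-- its colouring, on ordered pairs -/
def bigF (enc : Sym2 (X ⊕ O) → ℕ) : X ⊕ O → X ⊕ O → ℕ
  | .inl x, .inl y => 2 * c s(x, y)
  | .inl x, .inr v => 2 * enc s(.inl x, .inr v) + 1
  | .inr u, .inl y => 2 * enc s(.inr u, .inl y) + 1
  | .inr u, .inr v => 2 * enc s(.inr u, .inr v) + 1

/-- its colouring -/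
def bigC (enc : Sym2 (X ⊕ O) → ℕ) : Sym2 (X ⊕ O) → ℕ :=
  Sym2.lift ⟨bigF c O enc, by
    rintro (x | u) (y | v)
    · show 2 * c s(x, y) = 2 * c s(y, x)
      rw [Sym2.eq_swap]
    · show 2 * enc s(.inl x, .inr v) + 1 = 2 * enc s(.inr v, .inl x) + 1
      rw [Sym2.eq_swap]
    · show 2 * enc s(.inr u, .inl y) + 1 = 2 * enc s(.inl y, .inr u) + 1
      rw [Sym2.eq_swap]
    · show 2 * enc s(.inr u, .inr v) + 1 = 2 * enc s(.inr v, .inr u) + 1
      rw [Sym2.eq_swap]⟩

variable {G c} {s : ℕ}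

theorem big_no (hg : Gad s G c) (enc : Sym2 (X ⊕ O) → ℕ) :
    ¬ HasRainbow (bigG G O) (bigC c O enc) (s + 2) := by
  rintro ⟨K, hK, hR⟩
  have h1 : K.toRight.card ≤ 1 := by
    rw [Finset.card_le_one]
    intro u hu v hv
    by_contra huv
    rw [Finset.mem_toRight] at hu hv
    exact hR.1 _ hu _ hv (fun h => huv (Sum.inr_injective h))
  have h2 : RainbowClique G c K.toLeft := by
    refine ⟨?_, ?_⟩
    · intro a ha b hb hab
      rw [Finset.mem_toLeft] at ha hb
      exact hR.1 _ ha _ hb (fun h => hab (Sum.inl_injective h))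
    · intro a ha b hb a' ha' b' hb' hab hab' heq
      rw [Finset.mem_toLeft] at ha hb ha' hb'
      have h3 := hR.2 _ ha _ hb _ ha' _ hb' (fun h => hab (Sum.inl_injective h))
        (fun h => hab' (Sum.inl_injective h)) (by
          show 2 * c s(a, b) = 2 * c s(a', b')
          rw [heq])
      have h4 : (s(a, b)).map (Sum.inl : X → X ⊕ O) = (s(a', b')).map Sum.inl := h3
      exact Sym2.map.injective Sum.inl_injective h4
  have h3 := K.card_toLeft_add_card_toRight
  obtain ⟨L, hL1, hL2⟩ := Finset.exists_subset_card_eq (show s + 1 ≤ K.toLeft.card by omega)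
  exact hg.no L hL2 (h2.mono hL1)

theorem big_fits (hg : Gad s G c) (enc : Sym2 (X ⊕ O) → ℕ) (henc : Function.Injective enc)
    (u v : O) (huv : u ≠ v) (α : ℕ) :
    ∃ R : Finset (X ⊕ O), Fits (bigG G O) (bigC c O enc) s (Sum.inr u) (Sum.inr v) α R := by
  classical
  obtain ⟨K, hK1, hK2, hK3, hK4⟩ : ∃ K : Finset X, K.card = s ∧ RainbowClique G c K ∧
      (∀ x ∈ K, ∀ y ∈ K, x ≠ y → 2 * c s(x, y) ≠ α) ∧
      (∀ x ∈ K, ∀ o : O, 2 * enc s(Sum.inr o, Sum.inl x) + 1 ≠ α) := by
    rcases Nat.even_or_odd' α with ⟨β, rfl | rfl⟩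
    · obtain ⟨K, h1, h2, h3⟩ := hg.cl β
      refine ⟨K, h1, h2, fun x hx y hy hxy h => h3 x hx y hy hxy (by omega), ?_⟩
      intro x _ o h
      omega
    · by_cases hx : ∃ (x : X) (o : O), enc s(Sum.inr o, Sum.inl x) = β
      · obtain ⟨x, o, hxo⟩ := hx
        obtain ⟨K, h1, h2, h3⟩ := hg.vx x
        refine ⟨K, h1, h2, fun y _ z _ _ h => by omega, ?_⟩
        intro y hy o' h
        have h4 : enc s(Sum.inr o', Sum.inl y) = enc s(Sum.inr o, Sum.inl x) := by omega
        have h5 := henc h4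
        rw [Sym2.eq_iff] at h5
        rcases h5 with ⟨-, h5⟩ | ⟨h5, -⟩
        · rw [Sum.inl_injective h5] at hy
          exact h3 hy
        · exact Sum.inr_ne_inl h5
      · obtain ⟨K, h1, h2, h3⟩ := hg.cl 0
        refine ⟨K, h1, h2, fun y _ z _ _ h => by omega, ?_⟩
        intro y _ o' h
        exact hx ⟨y, o', by omega⟩
  have hmem : ∀ x ∈ K.map Function.Embedding.inl, ∃ y ∈ K, (Sum.inl y : X ⊕ O) = x := by
    intro x hx
    obtain ⟨y, hy, rfl⟩ := Finset.mem_map.mp hx
    exact ⟨y, hy, rfl⟩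
  refine ⟨K.map Function.Embedding.inl, ?_, ⟨?_, ?_⟩, ?_, ?_, ?_, ?_, ?_, ?_⟩
  · rw [Finset.card_map, hK1]
  · intro a ha b hb hab
    obtain ⟨a, ha', rfl⟩ := hmem a ha
    obtain ⟨b, hb', rfl⟩ := hmem b hb
    exact hK2.1 a ha' b hb' (fun h => hab (congrArg _ h))
  · intro a ha b hb a1 ha1 b1 hb1 hab hab1 heq
    obtain ⟨a, ha', rfl⟩ := hmem a ha
    obtain ⟨b, hb', rfl⟩ := hmem b hb
    obtain ⟨a1, ha1', rfl⟩ := hmem a1 ha1
    obtain ⟨b1, hb1', rfl⟩ := hmem b1 hb1
    have heq' : 2 * c s(a, b) = 2 * c s(a1, b1) := heq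
    have h3 := hK2.2 a ha' b hb' a1 ha1' b1 hb1' (fun h => hab (congrArg _ h))
      (fun h => hab1 (congrArg _ h)) (by omega)
    exact congrArg (Sym2.map Sum.inl) h3
  · intro x hx
    obtain ⟨x, hx', rfl⟩ := hmem x hx
    exact ⟨trivial, trivial⟩
  · intro x hx y hy hxy
    obtain ⟨x, hx', rfl⟩ := hmem x hx
    obtain ⟨y, hy', rfl⟩ := hmem y hy
    exact hK3 x hx' y hy' (fun h => hxy (congrArg _ h))
  · intro x hx
    obtain ⟨x, hx', rfl⟩ := hmem x hx
    exact ⟨hK4 x hx' u, hK4 x hx' v⟩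
  · intro x hx y hy hxy
    obtain ⟨x, hx', rfl⟩ := hmem x hx
    obtain ⟨y, hy', rfl⟩ := hmem y hy
    have key : ∀ o : O, bigC c O enc s(Sum.inr o, Sum.inl x) ≠
        bigC c O enc s(Sum.inr o, Sum.inl y) := by
      intro o h
      have h' : 2 * enc s(Sum.inr o, Sum.inl x) + 1 = 2 * enc s(Sum.inr o, Sum.inl y) + 1 := h
      have h5 := henc (show enc s(Sum.inr o, Sum.inl x) = enc s(Sum.inr o, Sum.inl y) by omega)
      rw [Sym2.eq_iff] at h5
      rcases h5 with ⟨-, h5⟩ | ⟨h5, -⟩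
      · exact hxy h5
      · exact Sum.inr_ne_inl h5
    exact ⟨key u, key v⟩
  · intro x hx y hy h
    obtain ⟨x, hx', rfl⟩ := hmem x hx
    obtain ⟨y, hy', rfl⟩ := hmem y hy
    have h' : 2 * enc s(Sum.inr u, Sum.inl x) + 1 = 2 * enc s(Sum.inr v, Sum.inl y) + 1 := h
    have h5 := henc (show enc s(Sum.inr u, Sum.inl x) = enc s(Sum.inr v, Sum.inl y) by omega)
    rw [Sym2.eq_iff] at h5
    rcases h5 with ⟨h5, -⟩ | ⟨h5, -⟩
    · exact huv (Sum.inr_injective h5)
    · exact Sum.inr_ne_inl h5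
  · intro x hx y hy z hz hyz
    obtain ⟨x, hx', rfl⟩ := hmem x hx
    obtain ⟨y, hy', rfl⟩ := hmem y hy
    obtain ⟨z, hz', rfl⟩ := hmem z hz
    refine ⟨fun h => ?_, fun h => ?_⟩
    · have h' : 2 * enc s(Sum.inr u, Sum.inl x) + 1 = 2 * c s(y, z) := h
      omega
    · have h' : 2 * enc s(Sum.inr v, Sum.inl x) + 1 = 2 * c s(y, z) := h
      omega

/-- the partial construction on `Fin n` -/
theorem seed (hKE : SpecKE) [Fintype X] (hg : Gad s G c) (n : ℕ)
    (hn : Fintype.card X ≤ n) : ∃ (G : SimpleGraph (Fin n)) (c : Sym2 (Fin n) → ℕ)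
    (A : Finset (Fin n)), A.card = Fintype.card X ∧ ¬ HasRainbow G c (s + 2) ∧
      ∀ u v : Fin n, u ∉ A → v ∉ A → u ≠ v → ∀ c' : Sym2 (Fin n) → ℕ,
        (∀ e, e ≠ s(u, v) → c' e = c e) →
        HasRainbow (G ⊔ SimpleGraph.edge u v) c' (s + 2) := by
  classical
  obtain ⟨k, rfl⟩ := Nat.exists_eq_add_of_le hn
  have hcard : Fintype.card (Fin (Fintype.card X + k)) = Fintype.card (X ⊕ Fin k) := by
    rw [Fintype.card_fin, Fintype.card_sum, Fintype.card_fin]
  obtain ⟨e⟩ : Nonempty (Fin (Fintype.card X + k) ≃ X ⊕ Fin k) :=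
    ⟨Fintype.equivOfCardEq hcard⟩
  obtain ⟨enc, henc⟩ := exists_injective_nat (Sym2 (X ⊕ Fin k))
  have hno := big_no (Fin k) hg enc
  refine ⟨(bigG G (Fin k)).comap e, fun p => bigC c (Fin k) enc (p.map e),
    univ.image (fun x : X => e.symm (Sum.inl x)), ?_, ?_, ?_⟩
  · rw [Finset.card_image_of_injective (f := fun x : X => e.symm (Sum.inl x)) _
      (fun a b h => Sum.inl_injective (e.symm.injective h)), Finset.card_univ]
  · rw [transfer e (s + 2)]
    exact hno
  · intro u v hu hv huv c' hc'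
    have hout : ∀ w : Fin (Fintype.card X + k),
        w ∉ univ.image (fun x : X => e.symm (Sum.inl x)) → ∃ o : Fin k, e w = Sum.inr o := by
      intro w hw
      rcases hew : e w with x | o
      · exfalso
        apply hw
        rw [Finset.mem_image]
        exact ⟨x, Finset.mem_univ x, by rw [← hew, e.symm_apply_apply]⟩
      · exact ⟨o, rfl⟩
    obtain ⟨o, ho⟩ := hout u hu
    obtain ⟨o', ho'⟩ := hout v hv
    have hoo : o ≠ o' := by
      rintro rfl
      exact huv (e.injective (ho.trans ho'.symm))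
    have hps := (hKE (X ⊕ Fin k) (bigG G (Fin k)) (bigC c (Fin k) enc) s (Sum.inr o)
      (Sum.inr o') hno (fun h => hoo (Sum.inr_injective h)) (fun h => h)).mpr
      (fun α => big_fits (Fin k) hg enc henc o o' hoo α)
    have h1 := hps (fun q => c' (q.map e.symm)) (by
      intro q hq
      have h2 : q.map e.symm ≠ s(u, v) := by
        intro h
        apply hq
        have h3 : (q.map e.symm).map e = s(e u, e v) := by rw [h]; rfl
        rw [Sym2.map_map] at h3
        have h4 : (e : Fin (Fintype.card X + k) → X ⊕ Fin k) ∘ e.symm = id := by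
          funext z
          exact e.apply_symm_apply z
        rw [h4, Sym2.map_id, id_eq, ho, ho'] at h3
        exact h3
      show c' (q.map e.symm) = _
      rw [hc' _ h2]
      show bigC c (Fin k) enc ((q.map e.symm).map e) = bigC c (Fin k) enc q
      rw [Sym2.map_map]
      have h4 : (e : Fin (Fintype.card X + k) → X ⊕ Fin k) ∘ e.symm = id := by
        funext z
        exact e.apply_symm_apply z
      rw [h4, Sym2.map_id, id_eq])
    rw [← transfer e] at h1
    obtain ⟨K, hK, h2, h3⟩ := h1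
    refine ⟨K, hK, ?_, ?_⟩
    · intro a ha b hb hab
      have h4 : (bigG G (Fin k) ⊔ SimpleGraph.edge (Sum.inr o) (Sum.inr o')).Adj (e a) (e b) :=
        h2 a ha b hb hab
      rw [SimpleGraph.sup_adj] at h4 ⊢
      rcases h4 with h4 | h4
      · exact Or.inl h4
      · right
        rw [SimpleGraph.edge_adj, ← ho, ← ho'] at h4
        rw [SimpleGraph.edge_adj]
        refine ⟨?_, hab⟩
        rcases h4.1 with ⟨h5, h6⟩ | ⟨h5, h6⟩
        · exact Or.inl ⟨e.injective h5, e.injective h6⟩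
        · exact Or.inr ⟨e.injective h5, e.injective h6⟩
    · intro a ha b hb a' ha' b' hb' hab hab' heq
      refine h3 a ha b hb a' ha' b' hb' hab hab' ?_
      show c' s(e.symm (e a), e.symm (e b)) = c' s(e.symm (e a'), e.symm (e b'))
      rw [e.symm_apply_apply, e.symm_apply_apply, e.symm_apply_apply, e.symm_apply_apply]
      exact heq

end UPAM

open UPAM in
theorem specUPA (hGAD : SpecGAD) (hKE : SpecKE) : SpecUPA := by
  classical
  intro s n hs
  obtain ⟨⟨GA, cA, hg⟩, -, -⟩ := hGAD s hs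
  by_cases hn : n < ord s
  · have h0 : ¬ HasRainbow (⊥ : SimpleGraph (Fin n)) (fun _ => 0) (s + 2) := by
      rintro ⟨K, hK, h1, -⟩
      obtain ⟨a, ha, b, hb, hab⟩ := Finset.one_lt_card.mp (show 1 < K.card by omega)
      exact h1 a ha b hb hab
    obtain ⟨G, c, -, -, h3⟩ := extend (s + 2) _ _ h0
    refine ⟨G, c, h3, ?_⟩
    have h4 : G.edgeSet ⊆ ((univ : Finset (Fin n × Fin n)).image (fun p => s(p.1, p.2)) :
        Set (Sym2 (Fin n))) := by
      intro e _
      induction e using Sym2.ind with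
      | _ a b =>
        rw [Finset.coe_image]
        exact ⟨(a, b), Finset.mem_coe.mpr (Finset.mem_univ _), rfl⟩
    have h5 := Set.ncard_le_ncard h4 (Finset.finite_toSet _)
    rw [Set.ncard_coe_finset] at h5
    have h6 : ((univ : Finset (Fin n × Fin n)).image (fun p => s(p.1, p.2))).card ≤ n * n := by
      refine Finset.card_image_le.trans ?_
      rw [Finset.card_univ, Fintype.card_prod, Fintype.card_fin]
    exact (h5.trans h6).trans (Nat.mul_le_mul_right n hn.le)
  · push Not at hn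
    obtain ⟨G0, c0, A, hA, h0, hsat⟩ := seed hKE hg n (by rw [Fintype.card_fin]; exact hn)
    rw [Fintype.card_fin] at hA
    obtain ⟨G, c, h1, h2, h3⟩ := extend (s + 2) G0 c0 h0
    refine ⟨G, c, h3, ?_⟩
    have h4 : G.edgeSet ⊆ ((A ×ˢ (univ : Finset (Fin n))).image (fun p => s(p.1, p.2)) :
        Set (Sym2 (Fin n))) := by
      intro e
      induction e using Sym2.ind with
      | _ a b =>
        intro he
        have hab : G.Adj a b := he
        rw [Finset.coe_image]
        by_cases ha : a ∈ A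
        · exact ⟨(a, b), Finset.mem_coe.mpr (Finset.mem_product.mpr ⟨ha, Finset.mem_univ _⟩), rfl⟩
        · by_cases hb : b ∈ A
          · exact ⟨(b, a), Finset.mem_coe.mpr (Finset.mem_product.mpr ⟨hb, Finset.mem_univ _⟩),
              Sym2.eq_swap⟩
          · exact absurd hab (stays h1 h2 h3.1 (hsat a b ha hb (G.ne_of_adj hab)))
    have h5 := Set.ncard_le_ncard h4 (Finset.finite_toSet _)
    rw [Set.ncard_coe_finset] at h5
    have h6 : ((A ×ˢ (univ : Finset (Fin n))).image (fun p => s(p.1, p.2))).card ≤ ord s * n := by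
      refine Finset.card_image_le.trans ?_
      rw [Finset.card_product, hA, Finset.card_univ, Fintype.card_fin]
    exact h5.trans h6

end Pool.Agent.Lib.MP44a765
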